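import Pool.Agent.Q28.CU.Trip

/-!
# The relations on average over the primes, for arbitrary coefficients
-/

set_option autoImplicit false
set_option linter.unusedSectionVars false

namespace Pool.Agent.Q28.CU

open Finset Pool.Agent.Q28.CS

/-- the number of the primes `q ≥ Q` dividing `a ^ t - b ^ t` -/
lemma count_le {𝒬 : Finset ℕ} {Q : ℕ} (hQ : 2 ≤ Q) (h𝒬 : ∀ q ∈ 𝒬, q.Prime ∧ Q ≤ q) {a b t h : ℕ}
    (hab : a ≠ b) (ht : 1 ≤ t) (ha : a ≤ Q ^ h) (hb : b ≤ Q ^ h) :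
    #(𝒬.filter (fun q => a ^ t ≡ b ^ t [MOD q])) ≤ h * t := by
  classical
  set S := 𝒬.filter (fun q => a ^ t ≡ b ^ t [MOD q]) with hS
  set D : ℕ := ((b ^ t : ℕ) - (a ^ t : ℕ) : ℤ).natAbs with hD
  have hD0 : 0 < D := by
    rw [hD, Int.natAbs_pos, sub_ne_zero]
    intro h
    apply hab
    have h1 : b ^ t = a ^ t := by exact_mod_cast h
    exact (Nat.pow_left_injective (by omega : t ≠ 0) h1).symm
  have hDle : D ≤ Q ^ (h * t) := by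
    have h1 : a ^ t ≤ Q ^ (h * t) := by
      rw [pow_mul]
      exact Nat.pow_le_pow_left ha t
    have h2 : b ^ t ≤ Q ^ (h * t) := by
      rw [pow_mul]
      exact Nat.pow_le_pow_left hb t
    omega
  have hdvd : ∏ p ∈ S, p ∣ D := by
    refine Finset.prod_primes_dvd D (fun p hp => ?_) fun p hp => ?_
    · exact (h𝒬 p (mem_filter.1 hp).1).1.prime
    · have h1 := (mem_filter.1 hp).2
      rw [Nat.modEq_iff_dvd] at h1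
      rw [hD]
      exact Int.natCast_dvd.1 h1
  have h1 : Q ^ #S ≤ ∏ p ∈ S, p := by
    refine Finset.pow_card_le_prod _ _ _ fun p hp => ?_
    exact (h𝒬 p (mem_filter.1 hp).1).2
  have h2 : Q ^ #S ≤ Q ^ (h * t) := h1.trans ((Nat.le_of_dvd hD0 hdvd).trans hDle)
  exact (Nat.pow_le_pow_iff_right (by omega)).1 h2

/-- the sum over the triples and the exponents -/
noncomputable def ST (T K : ℕ) (𝓜 : Finset ℕ) (r : ℕ → ℝ) (q : ℕ) : ℝ :=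
  ∑ x ∈ (Icc 1 K ×ˢ (𝓜 ×ˢ 𝓜)).filter (fun x => x.1 * x.2.2 ≠ x.2.1), ∑ t ∈ Icc 1 T,
    if (x.1 * x.2.2) ^ t ≡ x.2.1 ^ t [MOD q] then tt r x else 0

variable {𝓜 : Finset ℕ} {r : ℕ → ℝ}

lemma ST_nonneg (hr : ∀ n, 0 ≤ r n) (T K : ℕ) (q : ℕ) : 0 ≤ ST T K 𝓜 r q := by
  unfold ST
  refine sum_nonneg fun x _ => sum_nonneg fun t _ => ?_
  split_ifs
  · exact tt_nonneg hr x
  · exact le_rfl

open Classical in
lemma rel_le (hr : ∀ n, 0 ≤ r n) {q : ℕ} [NeZero q] {G : Subgroup (ZMod q)ˣ} {T K : ℕ}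
    (hT : Nat.card G ≤ T) :
    ∑ x ∈ (Icc 1 K ×ˢ (𝓜 ×ˢ 𝓜)).filter (fun x => x.1 * x.2.2 ≠ x.2.1 ∧ Rel G (x.1 * x.2.2) x.2.1), tt r x ≤
      ST T K 𝓜 r q := by
  unfold ST
  have h1 : (Icc 1 K ×ˢ (𝓜 ×ˢ 𝓜)).filter (fun x => x.1 * x.2.2 ≠ x.2.1 ∧ Rel G (x.1 * x.2.2) x.2.1) =
      ((Icc 1 K ×ˢ (𝓜 ×ˢ 𝓜)).filter (fun x => x.1 * x.2.2 ≠ x.2.1)).filter
        (fun x => Rel G (x.1 * x.2.2) x.2.1) := by
    rw [filter_filter]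
  rw [h1, sum_filter]
  refine sum_le_sum fun x _ => ?_
  have h0 : ∀ t ∈ Icc 1 T, (0 : ℝ) ≤ if (x.1 * x.2.2) ^ t ≡ x.2.1 ^ t [MOD q] then tt r x else 0 := by
    intro t _
    split_ifs
    · exact tt_nonneg hr x
    · exact le_rfl
  split_ifs with hR
  · obtain ⟨g, hg, e⟩ := hR
    have hk : 1 ≤ Nat.card G := Nat.card_pos
    have h2 : g ^ Nat.card G = 1 := by
      have h3 : (⟨g, hg⟩ : G) ^ Nat.card G = 1 := pow_card_eq_one'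
      have h4 : ((⟨g, hg⟩ ^ Nat.card G : G) : (ZMod q)ˣ) = ((1 : G) : (ZMod q)ˣ) := by rw [h3]
      rw [Subgroup.coe_pow, Subgroup.coe_one] at h4
      exact h4
    have h3 : (x.1 * x.2.2) ^ Nat.card G ≡ x.2.1 ^ Nat.card G [MOD q] := by
      rw [← ZMod.natCast_eq_natCast_iff, Nat.cast_pow, Nat.cast_pow, e, mul_pow, ← Units.val_pow_eq_pow_val,
        h2, Units.val_one, one_mul]
    refine le_trans (le_of_eq ?_) (single_le_sum h0 (mem_Icc.2 ⟨hk, hT⟩))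
    rw [if_pos h3]
  · exact sum_nonneg h0

/-- **The relations on average.** -/
theorem avg (hr : ∀ n, 0 ≤ r n) {𝒬 : Finset ℕ} {Q T K M h : ℕ} (hQ : 2 ≤ Q)
    (h𝒬 : ∀ q ∈ 𝒬, q.Prime ∧ Q ≤ q) (h𝓜 : ∀ n ∈ 𝓜, n ≤ M) (hK1 : 1 ≤ K) (hKM : K * M ≤ Q ^ h) :
    ∑ q ∈ 𝒬, ST T K 𝓜 r q ≤ h * (T : ℝ) ^ 2 * (2 * √K) * (∑ n ∈ 𝓜, r n) ^ 2 := by
  classical
  have h1 : ∑ q ∈ 𝒬, ST T K 𝓜 r q = ∑ x ∈ (Icc 1 K ×ˢ (𝓜 ×ˢ 𝓜)).filter (fun x => x.1 * x.2.2 ≠ x.2.1),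
      ∑ t ∈ Icc 1 T, ∑ q ∈ 𝒬, if (x.1 * x.2.2) ^ t ≡ x.2.1 ^ t [MOD q] then tt r x else 0 := by
    unfold ST
    rw [sum_comm]
    refine sum_congr rfl fun v _ => ?_
    rw [sum_comm]
  have h2 : ∀ x ∈ (Icc 1 K ×ˢ (𝓜 ×ˢ 𝓜)).filter (fun x => x.1 * x.2.2 ≠ x.2.1),
      (∑ t ∈ Icc 1 T, ∑ q ∈ 𝒬, if (x.1 * x.2.2) ^ t ≡ x.2.1 ^ t [MOD q] then tt r x else 0) ≤
      h * (T : ℝ) ^ 2 * tt r x := by
    intro x hx
    rw [mem_filter, mem_product, mem_product, mem_Icc] at hx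
    have k1 : x.1 * x.2.2 ≤ Q ^ h := (Nat.mul_le_mul hx.1.1.2 (h𝓜 _ hx.1.2.2)).trans hKM
    have k2 : x.2.1 ≤ Q ^ h := by
      calc x.2.1 ≤ M := h𝓜 _ hx.1.2.1
        _ = 1 * M := (one_mul M).symm
        _ ≤ K * M := Nat.mul_le_mul_right _ hK1
        _ ≤ Q ^ h := hKM
    have h3 : ∀ t ∈ Icc 1 T, (∑ q ∈ 𝒬, if (x.1 * x.2.2) ^ t ≡ x.2.1 ^ t [MOD q] then tt r x else 0) ≤
        h * T * tt r x := by
      intro t ht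
      rw [mem_Icc] at ht
      rw [← sum_filter, sum_const, nsmul_eq_mul]
      refine mul_le_mul_of_nonneg_right ?_ (tt_nonneg hr x)
      have h4 := count_le (h := h) hQ h𝒬 hx.2 ht.1 k1 k2
      have h5 : #(𝒬.filter (fun q => (x.1 * x.2.2) ^ t ≡ x.2.1 ^ t [MOD q])) ≤ h * T :=
        h4.trans (Nat.mul_le_mul_left _ ht.2)
      exact_mod_cast h5
    refine (sum_le_sum h3).trans (le_of_eq ?_)
    rw [sum_const, nsmul_eq_mul, Nat.card_Icc, Nat.add_sub_cancel]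
    ring
  rw [h1]
  refine (sum_le_sum h2).trans ?_
  rw [← mul_sum, mul_assoc (h * (T : ℝ) ^ 2) (2 * √K)]
  refine mul_le_mul_of_nonneg_left ?_ (by positivity)
  refine (sum_le_sum_of_subset_of_nonneg (filter_subset _ _) fun x _ _ => tt_nonneg hr x).trans ?_
  have e : ∑ x ∈ Icc 1 K ×ˢ (𝓜 ×ˢ 𝓜), tt r x = (∑ k ∈ Icc 1 K, (√(k : ℝ))⁻¹) * (∑ n ∈ 𝓜, r n) ^ 2 := by
    rw [sum_product, sum_mul]
    refine sum_congr rfl fun k _ => ?_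
    rw [sq, sum_mul_sum, ← sum_product', mul_sum]
    rfl
  rw [e]
  exact mul_le_mul_of_nonneg_right (SG.sum_inv_sqrt K) (by positivity)

/-- the number of the exceptional primes -/
theorem exc (hr : ∀ n, 0 ≤ r n) {𝒬 : Finset ℕ} {Q T K M h : ℕ} (hQ : 2 ≤ Q)
    (h𝒬 : ∀ q ∈ 𝒬, q.Prime ∧ Q ≤ q) (h𝓜 : ∀ n ∈ 𝓜, n ≤ M) (hK1 : 1 ≤ K) (hKM : K * M ≤ Q ^ h)
    (hU1 : 0 < U1 𝓜 r) {Δ : ℝ} (hΔ : (∑ n ∈ 𝓜, r n) ^ 2 ≤ Δ * U1 𝓜 r) :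
    ∃ 𝓔 : Finset ℕ, (#𝓔 : ℝ) ≤ 32 * h * (T : ℝ) ^ 2 * √K * Δ ∧
      ∀ q ∈ 𝒬, q ∉ 𝓔 → ST T K 𝓜 r q ≤ 1 / 16 * U1 𝓜 r := by
  classical
  refine ⟨𝒬.filter (fun q => 1 / 16 * U1 𝓜 r < ST T K 𝓜 r q), ?_, fun q hq hqE => ?_⟩
  · have h1 := avg (T := T) hr hQ h𝒬 h𝓜 hK1 hKM
    have h2 : ∑ _q ∈ 𝒬.filter (fun q => 1 / 16 * U1 𝓜 r < ST T K 𝓜 r q), (1 / 16 * U1 𝓜 r) ≤
        ∑ q ∈ 𝒬, ST T K 𝓜 r q := by
      refine (sum_le_sum fun q hq => (mem_filter.1 hq).2.le).trans ?_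
      exact sum_le_sum_of_subset_of_nonneg (filter_subset _ _) fun q _ _ => ST_nonneg hr _ _ _
    rw [sum_const, nsmul_eq_mul] at h2
    have h3 : h * (T : ℝ) ^ 2 * (2 * √K) * (∑ n ∈ 𝓜, r n) ^ 2 ≤
        h * (T : ℝ) ^ 2 * (2 * √K) * (Δ * U1 𝓜 r) := mul_le_mul_of_nonneg_left hΔ (by positivity)
    have h4 := h2.trans (h1.trans h3)
    refine le_of_mul_le_mul_right ?_ hU1
    linarith
  · by_contra hcon
    exact hqE (mem_filter.2 ⟨hq, not_le.1 hcon⟩)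

end Pool.Agent.Q28.CU
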