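import Pool.Agent.Q28.CU.Data

/-!
# The coefficients of the resonator: properties
-/

set_option autoImplicit false
set_option linter.unusedSectionVars false

namespace Pool.Agent.Q28.CU

open Finset ComplexConjugate ComplexOrder Pool.Agent.Q28.SG

/-- the properties of the resonator `∏ Rb (τ_i S_i) (K_i)` modulo a large prime -/
lemma large_prime {ι : Type} [Fintype ι] [DecidableEq ι] {P : ι → Finset ℕ} {Z : ι → ℝ}
    {K : ι → ℕ} {D : ι → ℝ} (hZ : ∀ i, 0 < Z i)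
    (hP : ∀ i, ∀ p ∈ P i, p.Prime ∧ (p : ℝ) ≤ Z i)
    (hd : ∀ i j, i ≠ j → Disjoint (P i) (P j)) {N : ℕ} (hN : ∏ i, Z i ≤ N)
    (hK : ∀ i, (16 * Z i) ^ K i ≤ (((K i).factorial * (#(P i)).descFactorial (K i) : ℕ) : ℝ))
    (hbad : ∑ i, (1 / 2 : ℝ) ^ K i ≤ 1 / 2)
    (hD : ∀ i, (∑ k ∈ range (K i + 1), ((2 * √(Z i))⁻¹ * #(P i)) ^ (K i + k)) ^ 2 ≤
      D i * (((4 * Z i) ^ (2 * K i))⁻¹ *
        (((2 * K i).factorial * (#(P i)).descFactorial (2 * K i) : ℕ) : ℝ)))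
    (hD0 : ∀ i, 0 ≤ D i)
    (hc : ∀ i, 2 * K i ≤ #(P i)) {M : ℕ} {𝓜 : Finset ℕ} {r : ℕ → ℝ} (h𝓜 : ∀ n ∈ 𝓜, 0 < n ∧ n ≤ M)
    {q : ℕ} [NeZero q] (hq : q.Prime) (hNM : N * M < q) (hM : M < q) (hZq : ∀ i, Z i < q)
    (hR : ∀ χ : DirichletCharacter ℂ q, (∏ i, Rb (fun χ => ((((2 * √(Z i))⁻¹ : ℝ) : ℂ) * S (P i) χ)) (K i) χ) =
      RD 𝓜 r χ) :
    0 < U1 𝓜 r ∧ (∑ n ∈ 𝓜, r n) ^ 2 ≤ (∏ i, D i) * U1 𝓜 r ∧
      2 ^ Fintype.card ι / 2 * U1 𝓜 r ≤ U0 𝓜 r N := by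
  classical
  set s : ι → DirichletCharacter ℂ q → ℂ := fun i χ =>
    ((((2 * √(Z i))⁻¹ : ℝ) : ℂ) * S (P i) χ) with hs
  have hPq : ∀ i, ∀ p ∈ P i, p.Coprime q := by
    intro i p hp
    have h1 := hP i p hp
    have h2 : (p : ℝ) < q := lt_of_le_of_lt h1.2 (hZq i)
    have h3 : p < q := by exact_mod_cast h2
    exact (Nat.coprime_primes h1.1 hq).2 h3.ne
  have hτ : ∀ i, 0 ≤ (2 * √(Z i))⁻¹ := fun i => by positivity
  have hsp : ∀ i, Pos (s i) := fun i => (S_pos fun p hp => hPq i p hp).smul (hτ i)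
  have hτ2 : ∀ i (k : ℕ), ((2 * √(Z i))⁻¹) ^ (2 * k) = ((4 * Z i) ^ k)⁻¹ := by
    intro i k
    rw [pow_mul, inv_pow, mul_pow, Real.sq_sqrt (hZ i).le, inv_pow]
    norm_num
  have hpow : ∀ i (k : ℕ) (χ : DirichletCharacter ℂ q), s i χ ^ k * conj (s i χ) ^ k =
      ((((4 * Z i) ^ k)⁻¹ : ℝ) : ℂ) * (S (P i) χ ^ k * conj (S (P i) χ) ^ k) := by
    intro i k χ
    rw [hs]
    beta_reduce
    rw [map_mul, Complex.conj_ofReal, mul_pow, mul_pow, ← hτ2 i k]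
    push_cast
    ring
  have hmom : ∀ i (k : ℕ), PLe (fun _ => ((((4 * Z i) ^ k)⁻¹ *
      ((k.factorial * (#(P i)).descFactorial k : ℕ) : ℝ) : ℝ) : ℂ))
      (fun χ => s i χ ^ k * conj (s i χ) ^ k) := by
    intro i k
    refine ((diag (fun p hp => hPq i p hp) k).smul (c := ((4 * Z i) ^ k)⁻¹)
      (by have := hZ i; positivity)).congr fun χ => ?_
    beta_reduce
    rw [hpow]
    push_cast
    ring
  have hA : ∀ i ∈ (univ : Finset ι), PLe (fun _ => ((4 ^ K i : ℝ) : ℂ))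
      (fun χ => s i χ ^ K i * conj (s i χ) ^ K i) := by
    intro i _
    refine PLe.trans ?_ (hmom i (K i))
    have h4 : 0 ≤ ((4 * Z i) ^ K i)⁻¹ * (((K i).factorial * (#(P i)).descFactorial (K i) : ℕ) : ℝ) -
        4 ^ K i := by
      have h5 : 0 < (4 * Z i) ^ K i := by have := hZ i; positivity
      rw [sub_nonneg, inv_mul_eq_div, le_div_iff₀ h5, ← mul_pow]
      refine le_trans (le_of_eq ?_) (hK i)
      congr 1
      ring
    refine (Pos.const h4).congr fun χ => ?_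
    push_cast
    ring
  have hL : PLe (fun χ : DirichletCharacter ℂ q => ∏ i, (2 * s i χ)) (LN N) :=
    LN_ge P Z (fun i p hp => ⟨(hP i p hp).1, (hP i p hp).2⟩) hd hN
  have hfam : PosFam (univ : Finset (DirichletCharacter ℂ q)) :=
    posFam_subgroup ⊤ univ fun χ => by simp
  have key := resonance hfam univ K (fun i _ => hsp i) hA hL
  set c : ι → ℝ := fun i => ((4 * Z i) ^ (2 * K i))⁻¹ *
    (((2 * K i).factorial * (#(P i)).descFactorial (2 * K i) : ℕ) : ℝ) with hcdef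
  have hc0 : ∀ i, 0 < c i := by
    intro i
    have h5 : 0 < (4 * Z i) ^ (2 * K i) := by have := hZ i; positivity
    have h6 : 0 < (2 * K i).factorial * (#(P i)).descFactorial (2 * K i) :=
      Nat.mul_pos (Nat.factorial_pos _) (Nat.descFactorial_pos.2 (hc i))
    have h7 : (0 : ℝ) < (((2 * K i).factorial * (#(P i)).descFactorial (2 * K i) : ℕ) : ℝ) := by
      exact_mod_cast h6
    exact mul_pos (inv_pos.2 h5) h7
  have low := lower hfam univ K c (fun i _ => hsp i) (fun i _ => (hc0 i).le)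
    (fun i _ => hmom i (2 * K i))
  have hcp : 0 < ∏ i, c i := prod_pos fun i _ => hc0 i
  have hR' : ∀ χ : DirichletCharacter ℂ q, (∏ i, Rb (s i) (K i) χ) = RD 𝓜 r χ := hR
  rw [sum_congr rfl fun χ _ => by rw [hR' χ]] at low
  have tr := transfer (r := r) h𝓜 hq hNM hM
  have e2 : ∑ χ : DirichletCharacter ℂ q, ‖∏ i, Rb (s i) (K i) χ‖ ^ 2 = ((q - 1 : ℕ) : ℝ) * U1 𝓜 r := by
    rw [← tr.1]
    exact sum_congr rfl fun χ _ => by rw [hR' χ]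
  have e3 : (∑ χ : DirichletCharacter ℂ q, LN N χ * ((∏ i, Rb (s i) (K i) χ) *
      conj (∏ i, Rb (s i) (K i) χ))).re = ((q - 1 : ℕ) : ℝ) * U0 𝓜 r N := by
    rw [← tr.2]
    refine congrArg Complex.re (sum_congr rfl fun χ _ => by rw [hR' χ])
  rw [e2, e3] at key
  rw [tr.1] at low
  have hcardF : (#(univ : Finset (DirichletCharacter ℂ q)) : ℝ) = ((q - 1 : ℕ) : ℝ) := by
    rw [card_univ, ← Nat.card_eq_fintype_card,
      DirichletCharacter.card_eq_totient_of_hasEnoughRootsOfUnity ℂ q, Nat.totient_prime hq]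
  rw [hcardF] at low
  have hq1 : (0 : ℝ) < ((q - 1 : ℕ) : ℝ) := by
    have := hq.one_lt
    exact_mod_cast (by omega : 0 < q - 1)
  have hlow : ∏ i, c i ≤ U1 𝓜 r := le_of_mul_le_mul_left low hq1
  have hU1 : 0 < U1 𝓜 r := lt_of_lt_of_le hcp hlow
  refine ⟨hU1, ?_, ?_⟩
  · have e4 : RD 𝓜 r (1 : DirichletCharacter ℂ q) = ((∑ n ∈ 𝓜, r n : ℝ) : ℂ) := by
      rw [RD]
      push_cast
      refine sum_congr rfl fun n hn => ?_
      have h5 : n.Coprime q := (Nat.coprime_of_lt_prime (h𝓜 n hn).1.ne' ((h𝓜 n hn).2.trans_lt hM) hq).symm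
      rw [MulChar.one_apply ((ZMod.isUnit_iff_coprime n q).2 h5), mul_one]
    have e5 : (∑ n ∈ 𝓜, r n) ^ 2 = ‖∏ i, Rb (s i) (K i) (1 : DirichletCharacter ℂ q)‖ ^ 2 := by
      rw [hR', e4, Complex.norm_real, Real.norm_eq_abs, sq_abs]
    have e1 : ∀ i, ‖Rb (s i) (K i) 1‖ = ∑ k ∈ range (K i + 1),
        ((2 * √(Z i))⁻¹ * #(P i)) ^ (K i + k) := by
      intro i
      have e2 : s i 1 = (((2 * √(Z i))⁻¹ * #(P i) : ℝ) : ℂ) := by
        rw [hs]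
        beta_reduce
        have e3 : S (P i) (1 : DirichletCharacter ℂ q) = (#(P i) : ℂ) := by
          rw [S, sum_congr rfl (g := fun _ => (1 : ℂ)), sum_const, nsmul_eq_mul, mul_one]
          intro p hp
          exact MulChar.one_apply ((ZMod.isUnit_iff_coprime p q).2 (hPq i p hp))
        rw [e3]
        push_cast
        ring
      rw [Rb, e2]
      have e4 : ∑ k ∈ range (K i + 1), ((((2 * √(Z i))⁻¹ * #(P i) : ℝ) : ℂ)) ^ (K i + k) =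
          ((∑ k ∈ range (K i + 1), ((2 * √(Z i))⁻¹ * #(P i)) ^ (K i + k) : ℝ) : ℂ) := by
        push_cast
        rfl
      rw [e4, Complex.norm_real, Real.norm_of_nonneg]
      exact sum_nonneg fun k _ => by positivity
    rw [e5, norm_prod, ← prod_pow]
    calc ∏ i, ‖Rb (s i) (K i) 1‖ ^ 2 ≤ ∏ i, (D i * c i) := by
          refine prod_le_prod (fun i _ => by positivity) fun i _ => ?_
          rw [e1]
          exact hD i
      _ = (∏ i, D i) * ∏ i, c i := by rw [prod_mul_distrib]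
      _ ≤ (∏ i, D i) * U1 𝓜 r := mul_le_mul_of_nonneg_left hlow (prod_nonneg fun i _ => hD0 i)
  · rw [card_univ] at key
    have h5 : 2 ^ Fintype.card ι * (1 / 2 : ℝ) * (((q - 1 : ℕ) : ℝ) * U1 𝓜 r) ≤
        2 ^ Fintype.card ι * (1 - ∑ i, (1 / 2 : ℝ) ^ K i) * (((q - 1 : ℕ) : ℝ) * U1 𝓜 r) := by
      refine mul_le_mul_of_nonneg_right (mul_le_mul_of_nonneg_left ?_ (by positivity))
        (mul_nonneg hq1.le hU1.le)
      linarith
    have h6 := h5.trans key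
    have h7 : ((q - 1 : ℕ) : ℝ) * (2 ^ Fintype.card ι / 2 * U1 𝓜 r) ≤ ((q - 1 : ℕ) : ℝ) * U0 𝓜 r N := by
      refine le_trans (le_of_eq ?_) h6
      ring
    exact le_of_mul_le_mul_left h7 hq1

/-- **The coefficients.** -/
theorem coef : ∃ l0 : ℕ, 30 ≤ l0 ∧ ∀ l : ℕ, l0 ≤ l → ∃ (𝓜 : Finset ℕ) (r : ℕ → ℝ) (M : ℕ), (∀ n, 0 ≤ r n) ∧
    1 ≤ M ∧ Real.log M ≤ l * gl l ∧
    (∀ n ∈ 𝓜, 0 < n ∧ n ≤ M ∧ ∀ p : ℕ, p.Prime → p ∣ n → (p : ℝ) ≤ Real.exp (4 * l)) ∧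
    0 < U1 𝓜 r ∧ (∑ n ∈ 𝓜, r n) ^ 2 ≤ Real.exp (gl l / 2) * U1 𝓜 r ∧
    ∀ N : ℕ, Real.exp (gl l) ≤ N → 2 ^ nb l / 2 * U1 𝓜 r ≤ U0 𝓜 r N := by
  classical
  obtain ⟨l0, H⟩ := blocks
  refine ⟨l0 + 30, by omega, fun l hl => ?_⟩
  obtain ⟨ι, _, _, _, P, Z, K, D, hcard, hZ0, hP, hd, hZe, hZprod, hK, hbad, hD0, hD, hc, hDprod, hsum⟩ :=
    H l (by omega)
  have hl0 : (0 : ℝ) < l := by exact_mod_cast (by omega : 0 < l)
  have hl1 : (1 : ℝ) ≤ l := by exact_mod_cast (by omega : 1 ≤ l)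
  have hlog : 0 ≤ Real.log l := Real.log_nonneg hl1
  obtain ⟨Zm, hZm⟩ : ∃ Zm, Zm = ⌊Real.exp (4 * l)⌋₊ := ⟨_, rfl⟩
  have hZmle : (Zm : ℝ) ≤ Real.exp (4 * l) := by
    rw [hZm]
    exact Nat.floor_le (Real.exp_pos _).le
  have hZm1 : 1 ≤ Zm := by
    rw [hZm]
    refine Nat.le_floor ?_
    push_cast
    exact Real.one_le_exp (by positivity)
  have hPZ : ∀ i, ∀ p ∈ P i, p.Prime ∧ p ≤ Zm := by
    intro i p hp
    refine ⟨(hP i p hp).1, ?_⟩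
    rw [hZm]
    exact Nat.le_floor ((hP i p hp).2.trans (hZe i))
  have hblk : ∀ i, DPoly Zm (Zm ^ (2 * K i))
      (fun _ χ => Rb (fun χ => ((((2 * √(Z i))⁻¹ : ℝ) : ℂ)) * S (P i) χ) (K i) χ) := fun i =>
    DPoly.block hZm1 (hPZ i) (by positivity) (K i)
  have hprod := DPoly.prod (Z := Zm) (univ : Finset ι) (F := fun i _ χ =>
    Rb (fun χ => ((((2 * √(Z i))⁻¹ : ℝ) : ℂ)) * S (P i) χ) (K i) χ) (M := fun i => Zm ^ (2 * K i))
    fun i _ => hblk i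
  obtain ⟨𝓜, r, hr, h𝓜, hRD⟩ := hprod
  set M := ∏ i, Zm ^ (2 * K i) with hM
  have hM1 : 1 ≤ M := by
    rw [hM]
    exact one_le_prod' fun i _ => Nat.one_le_pow _ _ (by omega)
  -- any large prime
  have hlarge : ∀ N : ℕ, Real.exp (gl l) ≤ N → 0 < U1 𝓜 r ∧ (∑ n ∈ 𝓜, r n) ^ 2 ≤ (∏ i, D i) * U1 𝓜 r ∧
      2 ^ Fintype.card ι / 2 * U1 𝓜 r ≤ U0 𝓜 r N := by
    intro N hN
    obtain ⟨q, hqge, hq⟩ := Nat.exists_infinite_primes (N * M + M + ⌈Real.exp (4 * l)⌉₊ + 1)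
    haveI : NeZero q := ⟨hq.ne_zero⟩
    refine large_prime (Z := Z) (K := K) (D := D) hZ0 hP hd (hZprod.trans hN) hK hbad hD hD0 hc
      (fun n hn => ⟨(h𝓜 n hn).1, (h𝓜 n hn).2.1⟩) hq (by omega) (by omega) (fun i => ?_) (fun χ => ?_)
    · have h1 : (⌈Real.exp (4 * l)⌉₊ : ℝ) < q := by exact_mod_cast (by omega : ⌈Real.exp (4 * l)⌉₊ < q)
      exact lt_of_le_of_lt ((hZe i).trans (Nat.le_ceil _)) h1
    · exact hRD q χ
  obtain ⟨g1, g2, _⟩ := hlarge ⌈Real.exp (gl l)⌉₊ (Nat.le_ceil _)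
  refine ⟨𝓜, r, M, hr, hM1, ?_, fun n hn => ⟨(h𝓜 n hn).1, (h𝓜 n hn).2.1, fun p hp hd => ?_⟩, g1,
    g2.trans (mul_le_mul_of_nonneg_right hDprod g1.le), fun N hN => ?_⟩
  · have hZm0 : (0 : ℝ) < Zm := by exact_mod_cast hZm1
    have e1 : Real.log M = ((∑ i, 2 * K i : ℕ) : ℝ) * Real.log Zm := by
      rw [hM, prod_pow_eq_pow_sum]
      push_cast
      rw [Real.log_pow]
      push_cast
      rfl
    have h2 : Real.log Zm ≤ 4 * l := by
      rw [Real.log_le_iff_le_exp hZm0]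
      exact hZmle
    have h3 : 0 ≤ Real.log Zm := Real.log_nonneg (by exact_mod_cast hZm1)
    rw [e1]
    calc ((∑ i, 2 * K i : ℕ) : ℝ) * Real.log Zm ≤ (6144 * l * 4 ^ l * (1 + Real.log l)) * (4 * l) :=
          mul_le_mul hsum h2 h3 (by positivity)
      _ ≤ l * gl l := by
          rw [gl]
          have h10 : 0 ≤ (l : ℝ) * ((l : ℝ) * 4 ^ l * (1 + Real.log l)) := by positivity
          nlinarith
  · have h1 : (p : ℝ) ≤ Zm := by exact_mod_cast (h𝓜 n hn).2.2 p hp hd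
    exact h1.trans hZmle
  · rw [← hcard]
    exact (hlarge N hN).2.2

end Pool.Agent.Q28.CU
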