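import Pool.Agent.Q28.CU.Trip

/-!
# The coefficients of the resonator
-/

set_option autoImplicit false
set_option linter.unusedSectionVars false

namespace Pool.Agent.Q28.CU

open Finset ComplexConjugate ComplexOrder Pool.Agent.Q28.SG

attribute [local irreducible] Yn bn sn Kn

/-- the blocks -/
theorem blocks : ∃ l0 : ℕ, ∀ l : ℕ, l0 ≤ l → ∃ (ι : Type) (_ : Fintype ι) (_ : DecidableEq ι)
    (_ : Nonempty ι) (P : ι → Finset ℕ) (Z : ι → ℝ) (K : ι → ℕ) (D : ι → ℝ),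
    Fintype.card ι = nb l ∧ (∀ i, 0 < Z i) ∧ (∀ i, ∀ p ∈ P i, p.Prime ∧ (p : ℝ) ≤ Z i) ∧
    (∀ i j, i ≠ j → Disjoint (P i) (P j)) ∧ (∀ i, Z i ≤ Real.exp (4 * l)) ∧
    (∏ i, Z i ≤ Real.exp (gl l)) ∧
    (∀ i, (16 * Z i) ^ K i ≤ (((K i).factorial * (#(P i)).descFactorial (K i) : ℕ) : ℝ)) ∧
    (∑ i, (1 / 2 : ℝ) ^ K i ≤ 1 / 2) ∧ (∀ i, 0 ≤ D i) ∧
    (∀ i, (∑ k ∈ range (K i + 1), ((2 * √(Z i))⁻¹ * #(P i)) ^ (K i + k)) ^ 2 ≤
      D i * (((4 * Z i) ^ (2 * K i))⁻¹ *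
        (((2 * K i).factorial * (#(P i)).descFactorial (2 * K i) : ℕ) : ℝ))) ∧
    (∀ i, 2 * K i ≤ #(P i)) ∧ (∏ i, D i ≤ Real.exp (gl l / 2)) ∧
    (((∑ i, 2 * K i : ℕ) : ℝ) ≤ 6144 * l * 4 ^ l * (1 + Real.log l)) := by
  classical
  obtain ⟨Y0, hY0⟩ := card_PI
  refine ⟨Y0 + 30, fun l hl => ?_⟩
  have hl30 : 30 ≤ l := by omega
  have hl0 : (0 : ℝ) < l := by exact_mod_cast (by omega : 0 < l)
  have hl1 : (30 : ℝ) ≤ l := by exact_mod_cast hl30
  have hlog : 0 ≤ Real.log l := Real.log_nonneg (by linarith)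
  have hbl : ∀ j : Fin l, ∃ P : Fin (bn l j) → Finset ℕ,
      (∀ i, P i ⊆ PI (Yn l j) ∧ #(P i) = sn l j) ∧ ∀ i i', i ≠ i' → Disjoint (P i) (P i') := by
    intro j
    refine split _ _ _ ((bn_sn l j).trans ?_)
    have hYge : Y0 ≤ Yn l j := by
      have a1 : l < 2 ^ l := Nat.lt_two_pow_self
      have a2 : 2 ^ l ≤ 4 ^ (j + l + 9) := by
        calc 2 ^ l ≤ 4 ^ l := Nat.pow_le_pow_left (by norm_num) l
          _ ≤ 4 ^ (j + l + 9) := Nat.pow_le_pow_right (by norm_num) (by omega)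
      have a3 : 1 ≤ l ^ 2 := Nat.one_le_pow _ _ (by omega)
      calc Y0 ≤ 2 ^ l * 1 := by omega
        _ ≤ 4 ^ (j + l + 9) * l ^ 2 := Nat.mul_le_mul a2 a3
        _ = Yn l j := by rw [Yn]
    have h5 := hY0 _ hYge
    have h6 : (Yn l j : ℝ) ≤ #(PI (Yn l j)) * (4 * l) :=
      h5.trans (mul_le_mul_of_nonneg_left (log_Z_le hl30 j.2) (Nat.cast_nonneg _))
    have h7 : Yn l j ≤ #(PI (Yn l j)) * (4 * l) := by exact_mod_cast h6
    have h8 : (4 ^ ((j : ℕ) + l + 8) * l) * (4 * l) ≤ #(PI (Yn l j)) * (4 * l) := by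
      refine le_trans (le_of_eq ?_) h7
      rw [Yn]
      ring
    exact Nat.le_of_mul_le_mul_right h8 (by omega)
  choose P hP hPd using hbl
  have hne : Nonempty (Σ j : Fin l, Fin (bn l j)) := by
    refine ⟨⟨⟨0, by omega⟩, ⟨0, ?_⟩⟩⟩
    change 0 < bn l 0
    rw [bn, Nat.zero_add, Nat.div_one]
    positivity
  have hcardι : Fintype.card (Σ j : Fin l, Fin (bn l j)) = nb l := by
    rw [Fintype.card_sigma, nb, ← Fin.sum_univ_eq_sum_range]
    simp only [Fintype.card_fin]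
  have hYpos : ∀ j, 0 < Yn l j := fun j => by
    rw [Yn]
    have : 0 < l := by omega
    positivity
  have hnbι := nb_le l
  have hKpos : ∀ i : (Σ j : Fin l, Fin (bn l j)), 1 ≤ Kn l i.1 := fun i => by
    rw [Kn]
    have : 0 < l := by omega
    exact Nat.one_le_iff_ne_zero.2 (by positivity)
  set Z : (Σ j : Fin l, Fin (bn l j)) → ℝ := fun i => 4 * (Yn l i.1 : ℝ) with hZ
  have hZ0 : ∀ i, 0 < Z i := fun i => by
    have := hYpos i.1
    have : (0 : ℝ) < Yn l i.1 := by exact_mod_cast this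
    rw [hZ]
    positivity
  have hZlog : ∀ i, Real.log (Z i) ≤ 4 * l := fun i => log_Z_le hl30 i.1.2
  have hZexp : ∀ i, Z i ≤ Real.exp (4 * l) := fun i => by
    rw [← Real.log_le_iff_le_exp (hZ0 i)]
    exact hZlog i
  have h4l : (1 : ℝ) ≤ 4 ^ l := one_le_pow₀ (by norm_num)
  have hcardr : (Fintype.card (Σ j : Fin l, Fin (bn l j)) : ℝ) = nb l := by exact_mod_cast hcardι
  have hKs : ∀ i : (Σ j : Fin l, Fin (bn l j)), 96 * Z i ≤ (Kn l i.1 : ℝ) * sn l i.1 := fun i => by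
    have := Kn_sn l i.1
    change 96 * (4 * (Yn l i.1 : ℝ)) ≤ _
    exact_mod_cast this
  refine ⟨(Σ j : Fin l, Fin (bn l j)), inferInstance, inferInstance, hne, fun i => P i.1 i.2, Z,
    fun i => Kn l i.1, fun i => (6 * (sn l i.1 : ℝ) / Kn l i.1) ^ (2 * Kn l i.1), hcardι, hZ0, ?_, ?_, hZexp,
    ?_, ?_, ?_, fun i => by positivity, ?_, ?_, ?_, ?_⟩
  · rintro ⟨j, i⟩ p hp
    have h5 := (hP j i).1 hp
    simp only [PI, mem_filter, mem_Ioc] at h5
    have h6 : (p : ℝ) ≤ Z ⟨j, i⟩ := by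
      change (p : ℝ) ≤ 4 * (Yn l j : ℝ)
      exact_mod_cast h5.1.2
    exact ⟨h5.2, h6⟩
  · rintro ⟨j, i⟩ ⟨j', i'⟩ hne
    by_cases hj : j = j'
    · subst hj
      refine hPd j i i' fun e => hne ?_
      rw [e]
    · rw [disjoint_left]
      intro p hp hp'
      have h5 := (hP j i).1 hp
      have h6 := (hP j' i').1 hp'
      simp only [PI, mem_filter, mem_Ioc] at h5 h6
      have h7 : ∀ a b : ℕ, a < b → 4 * Yn l a ≤ Yn l b := by
        intro a b hab
        rw [Yn, Yn]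
        calc 4 * (4 ^ (a + l + 9) * l ^ 2) = 4 ^ (a + 1 + l + 9) * l ^ 2 := by ring
          _ ≤ 4 ^ (b + l + 9) * l ^ 2 := by
            refine Nat.mul_le_mul_right _ (Nat.pow_le_pow_right (by norm_num) (by omega))
      rcases lt_or_gt_of_ne (fun e => hj (Fin.ext e) : (j : ℕ) ≠ j') with h | h
      · have := h7 _ _ h
        omega
      · have := h7 _ _ h
        omega
  · have h5 : ∏ i, Z i ≤ Real.exp (4 * l * nb l) := by
      calc ∏ i, Z i ≤ ∏ _i : (Σ j : Fin l, Fin (bn l j)), Real.exp (4 * l) :=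
            prod_le_prod (fun i _ => (hZ0 i).le) fun i _ => hZexp i
        _ = Real.exp (4 * l * nb l) := by
            rw [prod_const, card_univ, hcardι, ← Real.exp_nat_mul]
            congr 1
            ring
    refine h5.trans (Real.exp_le_exp.2 ?_)
    have h7 : 4 * (l : ℝ) * nb l ≤ 4 * l * (2 ^ l * (1 + Real.log l)) :=
      mul_le_mul_of_nonneg_left hnbι (by positivity)
    have h8 : (2 : ℝ) ^ l ≤ 4 ^ l := pow_le_pow_left₀ (by norm_num) (by norm_num) l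
    have h9 : 4 * (l : ℝ) * (2 ^ l * (1 + Real.log l)) ≤ 4 * l * (4 ^ l * (1 + Real.log l)) := by
      gcongr
    have h10 : 0 ≤ (l : ℝ) * 4 ^ l * (1 + Real.log l) := by positivity
    rw [gl]
    linarith
  · rintro ⟨j, i⟩
    have h5 := four_Kn j.2
    beta_reduce
    rw [(hP j i).2]
    refine le_trans (pow_le_pow_left₀ (by have := hZ0 ⟨j, i⟩; positivity) ?_ _)
      (fact_desc (K := Kn l j) (s := sn l j) (by omega))
    have h6 := hKs ⟨j, i⟩
    simp only at h6 ⊢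
    linarith
  · have h5 : ∀ i : (Σ j : Fin l, Fin (bn l j)), (1 / 2 : ℝ) ^ Kn l i.1 ≤ (1 / 2) ^ (2 * l + 1) := by
      intro i
      refine pow_le_pow_of_le_one (by norm_num) (by norm_num) ?_
      rw [Kn]
      nlinarith [Nat.zero_le (bn l i.1)]
    have h6 : nb l ≤ 4 ^ l := by
      calc nb l ≤ ∑ _j ∈ range l, 2 ^ l := sum_le_sum fun j _ => bn_le l j
        _ = l * 2 ^ l := by rw [sum_const, card_range, smul_eq_mul]
        _ ≤ 2 ^ l * 2 ^ l := Nat.mul_le_mul_right _ Nat.lt_two_pow_self.le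
        _ = 4 ^ l := two_pow_sq l
    calc ∑ i : (Σ j : Fin l, Fin (bn l j)), (1 / 2 : ℝ) ^ Kn l i.1 ≤
          ∑ _i : (Σ j : Fin l, Fin (bn l j)), (1 / 2 : ℝ) ^ (2 * l + 1) :=
          sum_le_sum fun i _ => h5 i
      _ = nb l * (1 / 2) ^ (2 * l + 1) := by rw [sum_const, card_univ, hcardι, nsmul_eq_mul]
      _ ≤ 4 ^ l * (1 / 2) ^ (2 * l + 1) := by
          refine mul_le_mul_of_nonneg_right ?_ (by positivity)
          exact_mod_cast h6
      _ = 1 / 2 := by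
          rw [pow_succ, pow_mul, ← mul_assoc, ← mul_pow]
          norm_num
  · rintro ⟨j, i⟩
    have h5 : #(P j i) = sn l j := (hP j i).2
    simp only [h5]
    have hK1 : 1 ≤ Kn l j := hKpos ⟨j, i⟩
    have hK4 : 4 * Kn l j ≤ sn l j := four_Kn j.2
    have hZ1 : 0 < Z ⟨j, i⟩ := hZ0 ⟨j, i⟩
    refine SG.cost hZ1 hK4 hK1 ?_
    have h6 : 4 * Z ⟨j, i⟩ ≤ (sn l j : ℝ) ^ 2 := by
      have h9 : (16 : ℝ) * Yn l j ≤ (sn l j : ℝ) ^ 2 := by exact_mod_cast four_Z_le l j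
      change 4 * (4 * (Yn l j : ℝ)) ≤ _
      linarith
    rw [sqrt_four, Real.sqrt_le_left (by positivity)]
    exact h6
  · rintro ⟨j, i⟩
    have h5 : #(P j i) = sn l j := (hP j i).2
    have h6 := four_Kn j.2
    simp only [h5]
    omega
  · have h5 : ∀ i : (Σ j : Fin l, Fin (bn l j)), (6 * (sn l i.1 : ℝ) / Kn l i.1) ^ (2 * Kn l i.1) ≤
        4 ^ (30720 * l * 2 ^ l) := by
      intro i
      have h6 : 6 * (sn l i.1 : ℝ) / Kn l i.1 ≤ 4 ^ (5 * ((i.1 : ℕ) + 1)) := by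
        have h7 : (0 : ℝ) < Kn l i.1 := by exact_mod_cast hKpos i
        rw [div_le_iff₀ h7]
        exact_mod_cast six_sn l i.1
      calc (6 * (sn l i.1 : ℝ) / Kn l i.1) ^ (2 * Kn l i.1)
          ≤ (4 ^ (5 * ((i.1 : ℕ) + 1))) ^ (2 * Kn l i.1) :=
            pow_le_pow_left₀ (by positivity) h6 _
        _ = 4 ^ (10 * (Kn l i.1 * ((i.1 : ℕ) + 1))) := by
            rw [← pow_mul]
            congr 1
            ring
        _ ≤ 4 ^ (30720 * l * 2 ^ l) := by
            refine pow_le_pow_right₀ (by norm_num) ?_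
            have := Kn_mul_le i.1.2
            calc 10 * (Kn l i.1 * ((i.1 : ℕ) + 1)) ≤ 10 * (3072 * l * 2 ^ l) :=
                  Nat.mul_le_mul_left _ this
              _ = 30720 * l * 2 ^ l := by ring
    calc ∏ i : (Σ j : Fin l, Fin (bn l j)), (6 * (sn l i.1 : ℝ) / Kn l i.1) ^ (2 * Kn l i.1)
        ≤ ∏ _i : (Σ j : Fin l, Fin (bn l j)), (4 : ℝ) ^ (30720 * l * 2 ^ l) :=
          prod_le_prod (fun i _ => by positivity) fun i _ => h5 i
      _ = ((4 : ℝ) ^ (30720 * l * 2 ^ l)) ^ nb l := by rw [prod_const, card_univ, hcardι]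
      _ = Real.exp (Real.log 4 * ((30720 * l * 2 ^ l) * nb l)) := by
          rw [← Real.rpow_natCast, ← Real.rpow_natCast, ← Real.rpow_mul (by norm_num),
            Real.rpow_def_of_pos (by norm_num)]
          push_cast
          rfl
      _ ≤ Real.exp (gl l / 2) := by
          refine Real.exp_le_exp.2 ?_
          have h7 : (30720 * (l : ℝ) * 2 ^ l) * nb l ≤ 30720 * l * 4 ^ l * (1 + Real.log l) := by
            calc (30720 * (l : ℝ) * 2 ^ l) * nb l
                ≤ (30720 * (l : ℝ) * 2 ^ l) * (2 ^ l * (1 + Real.log l)) :=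
                  mul_le_mul_of_nonneg_left hnbι (by positivity)
              _ = 30720 * l * (2 ^ l * 2 ^ l) * (1 + Real.log l) := by ring
              _ = 30720 * l * 4 ^ l * (1 + Real.log l) := by
                  rw [← mul_pow]
                  norm_num
          have h8 : Real.log 4 ≤ 1.3863 := by
            have h4 : Real.log 4 = 2 * Real.log 2 := by
              rw [show (4 : ℝ) = 2 ^ 2 by norm_num, Real.log_pow]
              norm_num
            have := Real.log_two_lt_d9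
            linarith
          have h9 : Real.log 4 * ((30720 * (l : ℝ) * 2 ^ l) * nb l) ≤
              1.3863 * (30720 * l * 4 ^ l * (1 + Real.log l)) :=
            mul_le_mul h8 h7 (by positivity) (by norm_num)
          have h10 : 0 ≤ (l : ℝ) * 4 ^ l * (1 + Real.log l) := by positivity
          rw [gl]
          linarith
  · have h5 : ∀ i ∈ (univ : Finset (Σ j : Fin l, Fin (bn l j))), 2 * Kn l i.1 ≤ 6144 * l * 2 ^ l := by
      intro i _
      have h6 := Kn_mul_le i.1.2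
      have h7 : Kn l i.1 ≤ Kn l i.1 * ((i.1 : ℕ) + 1) := Nat.le_mul_of_pos_right _ (by omega)
      have h8 : 2 * (3072 * l * 2 ^ l) = 6144 * l * 2 ^ l := by ring
      omega
    have h6 : (∑ i : (Σ j : Fin l, Fin (bn l j)), 2 * Kn l i.1) ≤ nb l * (6144 * l * 2 ^ l) := by
      refine (sum_le_sum h5).trans (le_of_eq ?_)
      rw [sum_const, card_univ, hcardι, smul_eq_mul]
    have h7 : ((∑ i : (Σ j : Fin l, Fin (bn l j)), 2 * Kn l i.1 : ℕ) : ℝ) ≤
        nb l * (6144 * l * 2 ^ l) := by exact_mod_cast h6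
    refine h7.trans ?_
    calc (nb l : ℝ) * (6144 * l * 2 ^ l) ≤ (2 ^ l * (1 + Real.log l)) * (6144 * l * 2 ^ l) :=
          mul_le_mul_of_nonneg_right hnbι (by positivity)
      _ = 6144 * l * (2 ^ l * 2 ^ l) * (1 + Real.log l) := by ring
      _ = 6144 * l * 4 ^ l * (1 + Real.log l) := by
          rw [← mul_pow]
          norm_num

end Pool.Agent.Q28.CU
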