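import Pool.Agent.Q28.CU.Trip

/-!
# The resonance inequality in a coset, for arbitrary coefficients
-/

set_option autoImplicit false
set_option linter.unusedSectionVars false

namespace Pool.Agent.Q28.CU

open Finset ComplexConjugate Pool.Agent.Q28.CS

variable {q : ℕ} [NeZero q] {𝓜 : Finset ℕ} {r : ℕ → ℝ}

lemma RD_le (hr : ∀ n, 0 ≤ r n) (χ : DirichletCharacter ℂ q) : ‖RD 𝓜 r χ‖ ≤ ∑ n ∈ 𝓜, r n := by
  refine (norm_sum_le _ _).trans (sum_le_sum fun n _ => ?_)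
  rw [norm_mul, Complex.norm_real, Real.norm_of_nonneg (hr n)]
  exact mul_le_of_le_one_right (hr n) (χ.norm_le_one _)

open Classical in
/-- **The resonance inequality in a coset.** -/
theorem main_gen (hq : q.Prime) (hq2 : q ≠ 2) {H : Subgroup (DirichletCharacter ℂ q)}
    {𝓗 𝓕 : Finset (DirichletCharacter ℂ q)} {ψ : DirichletCharacter ℂ q}
    (h : ∀ χ, χ ∈ 𝓗 ↔ χ ∈ H) (hF : ∀ χ, χ ∈ 𝓕 ↔ ψ⁻¹ * χ ∈ H) {K N : ℕ} (hr : ∀ n, 0 ≤ r n)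
    (h𝓜 : ∀ n ∈ 𝓜, 0 < n ∧ n.Coprime q) {σ Δ V : ℝ} (hU1 : 0 ≤ U1 𝓜 r)
    (hΔ : (∑ n ∈ 𝓜, r n) ^ 2 ≤ Δ * U1 𝓜 r)
    (hrel : ∑ x ∈ (Icc 1 K ×ˢ (𝓜 ×ˢ 𝓜)).filter
      (fun x => x.1 * x.2.2 ≠ x.2.1 ∧ Rel (orth H) (x.1 * x.2.2) x.2.1), tt r x ≤ σ * U1 𝓜 r)
    (hK : 1 ≤ K) (hKN : K ≤ N) (hN : 4 * q * Real.log q ^ 2 ≤ N)
    (hV : ∀ χ ∈ 𝓕, χ ≠ 1 → ‖χ.LFunction (1 / 2)‖ ≤ V) (hV0 : 0 ≤ V) :
    U0 𝓜 r N - σ * U1 𝓜 r ≤
      ((V + 1) * (1 + σ) + Nat.card (orth H) * Δ * ((√(K : ℝ))⁻¹ + 6 * √N / q)) * U1 𝓜 r := by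
  set k₀ : ℝ := ((Nat.card (orth H) : ℕ) : ℝ) with hk₀
  set W : ℝ := V + 1 with hW
  have hW0 : 0 ≤ W := by positivity
  have hq3 : 3 ≤ q := by
    have := hq.two_le
    omega
  have hq0 : (0 : ℝ) < q := by exact_mod_cast hq.pos
  have hN1 : 1 ≤ N := hK.trans hKN
  set hh : ℝ := ((#𝓗 : ℕ) : ℝ) with hhh
  have hcF : (#𝓕 : ℝ) = hh := by rw [card_coset h hF]
  have hh0 : 0 < hh := by
    have : 0 < #𝓗 := card_pos.2 ⟨1, (h 1).2 H.one_mem⟩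
    rw [hhh]
    exact_mod_cast this
  have hhk : hh * k₀ = q - 1 := by
    have h1 := card_orth h
    rw [Nat.totient_prime hq] at h1
    have h2 : ((#𝓗 * Nat.card (orth H) : ℕ) : ℝ) = ((q - 1 : ℕ) : ℝ) := by rw [h1]
    rw [Nat.cast_sub hq.one_lt.le] at h2
    push_cast at h2
    exact h2
  set 𝒯 := Icc 1 N ×ˢ (𝓜 ×ˢ 𝓜) with h𝒯
  have hmem : ∀ x ∈ 𝒯, (1 ≤ x.1 ∧ x.1 ≤ N) ∧ x.2.1 ∈ 𝓜 ∧ x.2.2 ∈ 𝓜 := by
    intro x hx
    rw [h𝒯, mem_product, mem_product, mem_Icc] at hx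
    exact ⟨hx.1, hx.2⟩
  have ht0 := tt_nonneg (r := r) hr
  -- the sums over the characters
  have hS1 : ∀ x ∈ 𝒯, ‖S3 𝓕 x‖ ≤ hh ∧ (S3 𝓕 x ≠ 0 → Rel (orth H) (x.1 * x.2.2) x.2.1) ∧
      (x.1 * x.2.2 = x.2.1 → S3 𝓕 x = hh) := by
    intro x hx
    obtain ⟨_, h3, h4⟩ := hmem x hx
    by_cases hc : x.1.Coprime q
    · obtain ⟨k1, k2⟩ := sum_three h hF (Nat.Coprime.mul_left hc (h𝓜 _ h4).2) (h𝓜 _ h3).2
      change ‖S3 𝓕 x‖ ≤ _ at k1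
      change _ → S3 𝓕 x = 0 at k2
      refine ⟨k1, fun h5 => by_contra fun h6 => h5 (k2 h6), fun h5 => ?_⟩
      unfold S3
      rw [h5, sum_diag (h𝓜 _ h3).2]
      rw [← hcF]
      norm_num
    · have e2 : S3 𝓕 x = 0 := by
        unfold S3
        refine sum_eq_zero fun χ _ => ?_
        push_cast
        rw [map_mul, MulChar.map_nonunit χ (by rwa [ZMod.isUnit_iff_coprime]), zero_mul, zero_mul]
      refine ⟨by rw [e2, norm_zero]; exact hh0.le, fun h5 => absurd e2 h5, fun h5 => ?_⟩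
      exfalso
      apply hc
      refine Nat.Coprime.coprime_dvd_left ?_ (h𝓜 _ h3).2
      rw [← h5]
      exact Dvd.intro _ rfl
  set D := 𝒯.filter (fun x => x.1 * x.2.2 = x.2.1) with hD
  set X1 := 𝒯.filter (fun x => x.1 * x.2.2 ≠ x.2.1 ∧ x.1 ≤ K ∧ S3 𝓕 x ≠ 0) with hX1
  set X2 := 𝒯.filter (fun x => x.1 * x.2.2 ≠ x.2.1 ∧ ¬ x.1 ≤ K ∧ S3 𝓕 x ≠ 0) with hX2
  have hlow : hh * (∑ x ∈ D, tt r x - ∑ x ∈ X1, tt r x - ∑ x ∈ X2, tt r x) ≤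
      (∑ χ ∈ 𝓕, SG.LN N χ * (RD 𝓜 r χ * conj (RD 𝓜 r χ))).re := by
    rw [expand3, Complex.re_sum, hD, hX1, hX2, sum_filter, sum_filter, sum_filter, ← sum_sub_distrib,
      ← sum_sub_distrib, mul_sum]
    refine sum_le_sum fun x hx => ?_
    obtain ⟨k1, _, k3⟩ := hS1 x hx
    rw [Complex.re_ofReal_mul]
    by_cases c1 : x.1 * x.2.2 = x.2.1
    · rw [if_pos c1, if_neg fun h => h.1 c1, if_neg fun h => h.1 c1, k3 c1, Complex.ofReal_re]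
      linarith
    · rw [if_neg c1]
      by_cases c3 : S3 𝓕 x = 0
      · rw [if_neg fun h => h.2.2 c3, if_neg fun h => h.2.2 c3, c3, Complex.zero_re]
        linarith
      · have k4 : -hh ≤ (S3 𝓕 x).re := by
          have := Complex.abs_re_le_norm (S3 𝓕 x)
          rw [abs_le] at this
          linarith [this.1]
        have k5 := ht0 x
        by_cases c2 : x.1 ≤ K
        · rw [if_pos ⟨c1, c2, c3⟩, if_neg fun h => h.2.1 c2]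
          nlinarith
        · rw [if_neg fun h => c2 h.2.1, if_pos ⟨c1, c2, c3⟩]
          nlinarith
  have hdiag : U0 𝓜 r N = ∑ x ∈ D, tt r x := rfl
  -- the small relations
  have hoff1 : ∑ x ∈ X1, tt r x ≤ σ * U1 𝓜 r := by
    refine le_trans (sum_le_sum_of_subset_of_nonneg ?_ fun x _ _ => ht0 x) hrel
    intro x hx
    rw [hX1, mem_filter] at hx
    obtain ⟨h1, h3, h4⟩ := hmem x hx.1
    rw [mem_filter, mem_product, mem_product, mem_Icc]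
    exact ⟨⟨⟨h1.1, hx.2.2.1⟩, h3, h4⟩, hx.2.1, (hS1 x hx.1).2.1 hx.2.2.2⟩
  -- the tail
  set R1 : ℝ := ∑ n ∈ 𝓜, r n with hR1
  have hR10 : 0 ≤ R1 := sum_nonneg fun n _ => hr n
  have hoff2 : ∑ x ∈ X2, tt r x ≤ R1 ^ 2 * (k₀ * ((√(K : ℝ))⁻¹ + 2 * √N / q)) := by
    have e1 : ∑ x ∈ X2, tt r x = ∑ v ∈ 𝓜 ×ˢ 𝓜, ∑ x ∈ X2.filter (fun x => x.2 = v), tt r x := by
      refine (sum_fiberwise_of_maps_to (fun x hx => ?_) (tt r)).symm
      rw [hX2, mem_filter] at hx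
      obtain ⟨_, h3, h4⟩ := hmem x hx.1
      exact mem_product.2 ⟨h3, h4⟩
    rw [e1]
    have e2 : ∀ v ∈ 𝓜 ×ˢ 𝓜, ∑ x ∈ X2.filter (fun x => x.2 = v), tt r x ≤
        (r v.1 * r v.2) * (k₀ * ((√(K : ℝ))⁻¹ + 2 * √N / q)) := by
      intro v hv
      rw [mem_product] at hv
      have hinj : Set.InjOn (fun x : ℕ × ℕ × ℕ => x.1) (X2.filter (fun x => x.2 = v) : Finset (ℕ × ℕ × ℕ)) := by
        intro x hx y hy h
        rw [mem_coe, mem_filter] at hx hy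
        exact Prod.ext h (hx.2.trans hy.2.symm)
      have e3 : ∑ x ∈ X2.filter (fun x => x.2 = v), tt r x = (r v.1 * r v.2) *
          ∑ k ∈ ((X2.filter (fun x => x.2 = v)).image (fun x => x.1) : Finset ℕ), (√(k : ℝ))⁻¹ := by
        rw [sum_image hinj, mul_sum]
        refine sum_congr rfl fun x hx => ?_
        rw [mem_filter] at hx
        unfold tt
        rw [hx.2]
        ring
      rw [e3]
      refine mul_le_mul_of_nonneg_left ?_ (mul_nonneg (hr _) (hr _))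
      refine tail_le (m := v.1) hK (h𝓜 _ hv.2).2 _ fun k hk => ?_
      obtain ⟨x, hx, rfl⟩ := mem_image.1 hk
      rw [mem_filter, hX2, mem_filter] at hx
      obtain ⟨h1, _, _⟩ := hmem x hx.1.1
      have h5 := (hS1 x hx.1.1).2.1 hx.1.2.2.2
      rw [hx.2] at h5
      exact ⟨⟨not_le.1 hx.1.2.2.1, h1.2⟩, h5⟩
    refine (sum_le_sum e2).trans (le_of_eq ?_)
    rw [← sum_mul, sum_product, hR1, sq, sum_mul_sum]
  -- the mean square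
  have hsq : ∑ χ ∈ 𝓕, ‖RD 𝓜 r χ‖ ^ 2 ≤ hh * ((1 + σ) * U1 𝓜 r) := by
    have hT1 : ∀ x ∈ 𝓜 ×ˢ 𝓜, (1, x) ∈ 𝒯 := by
      intro x hx
      rw [h𝒯, mem_product, mem_Icc]
      exact ⟨⟨le_rfl, hN1⟩, hx⟩
    have ht20 : ∀ x : ℕ × ℕ, 0 ≤ r x.1 * r x.2 := fun x => mul_nonneg (hr _) (hr _)
    rw [expand2]
    set X3 := (𝓜 ×ˢ 𝓜).filter (fun x => x.2 ≠ x.1 ∧ S3 𝓕 (1, x) ≠ 0) with hX3
    have e4 : ∀ x ∈ 𝓜 ×ˢ 𝓜, (r x.1 * r x.2) * (S3 𝓕 (1, x)).re ≤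
        (if x.2 = x.1 then hh * (r x.1 * r x.2) else 0) +
          (if x.2 ≠ x.1 ∧ S3 𝓕 (1, x) ≠ 0 then hh * (r x.1 * r x.2) else 0) := by
      intro x hx
      obtain ⟨k1, _, k3⟩ := hS1 _ (hT1 x hx)
      by_cases c1 : x.2 = x.1
      · rw [if_pos c1, if_neg fun h => h.1 c1, add_zero]
        have : S3 𝓕 (1, x) = hh := k3 (by simp only; rw [one_mul]; exact c1)
        rw [this, Complex.ofReal_re, mul_comm]
      · rw [if_neg c1, zero_add]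
        by_cases c2 : S3 𝓕 (1, x) = 0
        · rw [if_neg fun h => h.2 c2, c2, Complex.zero_re, mul_zero]
        · rw [if_pos ⟨c1, c2⟩]
          have k2 := (Complex.re_le_norm (S3 𝓕 (1, x))).trans k1
          rw [mul_comm]
          exact mul_le_mul_of_nonneg_right k2 (ht20 x)
    refine (sum_le_sum e4).trans ?_
    rw [sum_add_distrib, ← sum_filter, ← sum_filter, ← mul_sum, ← mul_sum, ← mul_add]
    refine mul_le_mul_of_nonneg_left ?_ hh0.le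
    have e5 : ∑ x ∈ (𝓜 ×ˢ 𝓜).filter (fun x => x.2 = x.1), r x.1 * r x.2 ≤ U1 𝓜 r := by
      have hinj : Set.InjOn (fun x : ℕ × ℕ => x.1) ((𝓜 ×ˢ 𝓜).filter (fun x => x.2 = x.1) : Finset (ℕ × ℕ)) := by
        intro x hx y hy h
        rw [mem_coe, mem_filter] at hx hy
        replace h : x.1 = y.1 := h
        exact Prod.ext h (by rw [hx.2, hy.2, h])
      have e6 : ∑ x ∈ (𝓜 ×ˢ 𝓜).filter (fun x => x.2 = x.1), r x.1 * r x.2 =
          ∑ m ∈ ((𝓜 ×ˢ 𝓜).filter (fun x => x.2 = x.1)).image (fun x => x.1), r m ^ 2 := by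
        rw [sum_image hinj]
        refine sum_congr rfl fun x hx => ?_
        rw [mem_filter] at hx
        rw [hx.2, sq]
      rw [e6, U1]
      refine sum_le_sum_of_subset_of_nonneg ?_ fun m _ _ => by positivity
      intro m hm
      obtain ⟨x, hx, rfl⟩ := mem_image.1 hm
      rw [mem_filter, mem_product] at hx
      exact hx.1.1
    have e7 : ∑ x ∈ X3, r x.1 * r x.2 ≤ σ * U1 𝓜 r := by
      have hinj : Set.InjOn (fun x : ℕ × ℕ => ((1 : ℕ), x)) (X3 : Finset (ℕ × ℕ)) := by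
        intro x _ y _ h
        simp only [Prod.mk.injEq, true_and] at h
        exact h
      have e8 : ∑ x ∈ X3, r x.1 * r x.2 = ∑ y ∈ X3.image (fun x : ℕ × ℕ => ((1 : ℕ), x)), tt r y := by
        rw [sum_image hinj]
        refine sum_congr rfl fun x _ => ?_
        unfold tt
        simp
      rw [e8]
      refine le_trans (sum_le_sum_of_subset_of_nonneg ?_ fun x _ _ => ht0 x) hrel
      intro y hy
      obtain ⟨x, hx, rfl⟩ := mem_image.1 hy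
      rw [hX3, mem_filter] at hx
      have h5 := (hS1 _ (hT1 x hx.1)).2.1 hx.2.2
      rw [mem_filter, mem_product, mem_Icc]
      refine ⟨⟨⟨le_rfl, hK⟩, hx.1⟩, ?_, h5⟩
      simp only
      rw [one_mul]
      exact hx.2.1
    rw [add_mul, one_mul]
    exact add_le_add e5 e7
  -- the upper bound
  have hup : (∑ χ ∈ 𝓕, SG.LN N χ * (RD 𝓜 r χ * conj (RD 𝓜 r χ))).re ≤
      W * (hh * ((1 + σ) * U1 𝓜 r)) + 2 * √N * (Δ * U1 𝓜 r) := by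
    rw [Complex.re_sum]
    have h5 : ∀ χ ∈ 𝓕, (SG.LN N χ * (RD 𝓜 r χ * conj (RD 𝓜 r χ))).re ≤
        W * ‖RD 𝓜 r χ‖ ^ 2 + if χ = 1 then 2 * √N * R1 ^ 2 else 0 := by
      intro χ hχ
      have h6 : ‖SG.LN N χ * (RD 𝓜 r χ * conj (RD 𝓜 r χ))‖ = ‖SG.LN N χ‖ * ‖RD 𝓜 r χ‖ ^ 2 := by
        rw [norm_mul, norm_mul, Complex.norm_conj]
        ring
      refine (Complex.re_le_norm _).trans ?_
      rw [h6]
      split_ifs with hc
      · have h7 := SG.LN_norm_le N χ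
        have h8 : ‖RD 𝓜 r χ‖ ^ 2 ≤ R1 ^ 2 := pow_le_pow_left₀ (norm_nonneg _) (RD_le hr χ) 2
        have h9 : ‖SG.LN N χ‖ * ‖RD 𝓜 r χ‖ ^ 2 ≤ 2 * √N * R1 ^ 2 :=
          mul_le_mul h7 h8 (by positivity) (by positivity)
        have h10 : 0 ≤ W * ‖RD 𝓜 r χ‖ ^ 2 := by positivity
        linarith
      · rw [add_zero]
        refine mul_le_mul_of_nonneg_right ?_ (by positivity)
        have h7 := SG.approx hq hq2 hc hN1 hN
        have h8 : ‖SG.LN N χ‖ ≤ ‖χ.LFunction (1 / 2)‖ + ‖χ.LFunction (1 / 2) - SG.LN N χ‖ := by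
          have := norm_sub_le (χ.LFunction (1 / 2)) (χ.LFunction (1 / 2) - SG.LN N χ)
          rwa [sub_sub_cancel] at this
        have h9 := hV χ hχ hc
        rw [hW]
        linarith
    refine (sum_le_sum h5).trans ?_
    rw [sum_add_distrib, ← mul_sum]
    refine add_le_add (mul_le_mul_of_nonneg_left hsq hW0) ?_
    rw [sum_ite_eq' 𝓕 1]
    split_ifs
    · exact mul_le_mul_of_nonneg_left hΔ (by positivity)
    · have h6 : 0 ≤ Δ * U1 𝓜 r := (sq_nonneg R1).trans hΔ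
      positivity
  -- conclusion
  have hΔU : 0 ≤ Δ * U1 𝓜 r := (sq_nonneg R1).trans hΔ
  have hk₀0 : 0 ≤ k₀ := Nat.cast_nonneg _
  have h2 : R1 ^ 2 * (k₀ * ((√(K : ℝ))⁻¹ + 2 * √N / q)) ≤
      Δ * U1 𝓜 r * (k₀ * ((√(K : ℝ))⁻¹ + 2 * √N / q)) :=
    mul_le_mul_of_nonneg_right hΔ (by positivity)
  have h3 : hh * (U0 𝓜 r N - σ * U1 𝓜 r - Δ * U1 𝓜 r * (k₀ * ((√(K : ℝ))⁻¹ + 2 * √N / q))) ≤
      W * (hh * ((1 + σ) * U1 𝓜 r)) + 2 * √N * (Δ * U1 𝓜 r) := by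
    refine le_trans ?_ (hlow.trans hup)
    refine mul_le_mul_of_nonneg_left ?_ hh0.le
    rw [hdiag]
    linarith
  have hq1 : (q : ℝ) ≤ 2 * (hh * k₀) := by
    have : (3 : ℝ) ≤ q := by exact_mod_cast hq3
    rw [hhk]
    linarith
  have h4 : 2 * √N * (Δ * U1 𝓜 r) ≤ hh * (k₀ * Δ * (4 * √N / q) * U1 𝓜 r) := by
    have h5 : (1 : ℝ) ≤ 2 * (hh * k₀) / q := by
      rw [le_div_iff₀ hq0, one_mul]
      exact hq1
    have h6 : 0 ≤ 2 * √N * (Δ * U1 𝓜 r) := by positivity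
    calc 2 * √N * (Δ * U1 𝓜 r) = 2 * √N * (Δ * U1 𝓜 r) * 1 := (mul_one _).symm
      _ ≤ 2 * √N * (Δ * U1 𝓜 r) * (2 * (hh * k₀) / q) := mul_le_mul_of_nonneg_left h5 h6
      _ = _ := by ring
  have h5 : hh * (U0 𝓜 r N - σ * U1 𝓜 r) ≤
      hh * ((W * (1 + σ) + k₀ * Δ * ((√(K : ℝ))⁻¹ + 6 * √N / q)) * U1 𝓜 r) := by
    have e : hh * ((W * (1 + σ) + k₀ * Δ * ((√(K : ℝ))⁻¹ + 6 * √N / q)) * U1 𝓜 r) =
        W * (hh * ((1 + σ) * U1 𝓜 r)) + hh * (k₀ * Δ * (4 * √N / q) * U1 𝓜 r) +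
          hh * (Δ * U1 𝓜 r * (k₀ * ((√(K : ℝ))⁻¹ + 2 * √N / q))) := by ring
    rw [e]
    rw [mul_sub] at h3
    linarith
  exact le_of_mul_le_mul_left h5 hh0

end Pool.Agent.Q28.CU
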