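import Pool.Agent.Q28.CU.Coef
import Pool.Agent.Q28.CU.Main
import Pool.Agent.Q28.CU.Avg

/-!
# Large central values in every coset, for almost all primes: the large size
-/

set_option autoImplicit false
set_option linter.unusedSectionVars false

namespace Pool.Agent.Q28.CU

open Finset Filter Pool.Agent.Q28.CS Pool.Agent.Q28.SG

/-- the length of the sums -/
lemma Nex {q k₀ : ℕ} {Δ Lq x : ℝ} (hq : 1 < q) (hk : 1 ≤ k₀) (hΔ : 1 ≤ Δ) (hLq : Lq = Real.log q)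
    (hL1 : 100 ≤ Lq) (hkx : Real.log k₀ ≤ x) (hlogM : Real.log Δ ≤ Lq / 100)
    (h6 : x + 2 * √Lq + 6 ≤ 48 / 100 * Lq) :
    ∃ N : ℕ, q ≤ N ∧ 4 * q * Real.log q ^ 2 ≤ N ∧ (k₀ : ℝ) * Δ * (6 * √N / q) ≤ 1 / 16 := by
  have hq0 : (0 : ℝ) < q := by exact_mod_cast (by omega : 0 < q)
  have hk0 : (0 : ℝ) < k₀ := by exact_mod_cast hk
  have hM0 : (0 : ℝ) < Δ := by linarith
  have hL0 : 0 < Lq := by linarith
  rw [← hLq]
  set N := ⌈4 * (q : ℝ) * Lq ^ 2⌉₊ with hN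
  have hN' : 4 * (q : ℝ) * Lq ^ 2 ≤ N := Nat.le_ceil _
  have hqN : (q : ℝ) ≤ 4 * q * Lq ^ 2 := by
    have h1 : (1 : ℝ) ≤ 4 * Lq ^ 2 := by nlinarith
    calc (q : ℝ) = q * 1 := (mul_one _).symm
      _ ≤ q * (4 * Lq ^ 2) := mul_le_mul_of_nonneg_left h1 hq0.le
      _ = _ := by ring
  have hsqN : √(N : ℝ) ≤ 3 * √q * Lq := by
    have h1 : (N : ℝ) ≤ 9 * q * Lq ^ 2 := by
      have h2 := Nat.ceil_lt_add_one (show 0 ≤ 4 * (q : ℝ) * Lq ^ 2 by positivity)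
      rw [← hN] at h2
      have h3 : (1 : ℝ) ≤ q := by exact_mod_cast hq.le
      linarith
    rw [show 3 * √(q : ℝ) * Lq = √((3 * √(q : ℝ) * Lq) ^ 2) by rw [Real.sqrt_sq (by positivity)]]
    refine Real.sqrt_le_sqrt (h1.trans (le_of_eq ?_))
    rw [mul_pow, mul_pow, Real.sq_sqrt hq0.le]
    ring
  refine ⟨N, by exact_mod_cast hqN.trans hN', hN', ?_⟩
  have h1 : (k₀ : ℝ) * Δ * (6 * √N / q) ≤ 18 * k₀ * Δ * Lq * (√q / q) := by
    calc (k₀ : ℝ) * Δ * (6 * √N / q) = 6 * (k₀ * Δ) / q * √N := by ring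
      _ ≤ 6 * (k₀ * Δ) / q * (3 * √q * Lq) := mul_le_mul_of_nonneg_left hsqN (by positivity)
      _ = _ := by ring
  refine h1.trans ?_
  have h2' : √(q : ℝ) / q = Real.exp (-(Lq / 2)) := by
    rw [Real.sqrt_div_self', Real.sqrt_eq_rpow, Real.rpow_def_of_pos hq0, one_div, ← Real.exp_neg]
    congr 1
    rw [← hLq]
    ring
  have h3 : 18 * (k₀ : ℝ) * Δ * Lq ≤ Real.exp (3 + x + Lq / 100 + 2 * √Lq) := by
    rw [← Real.log_le_iff_le_exp (by positivity), Real.log_mul (by positivity) (by positivity),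
      Real.log_mul (by positivity) (by positivity), Real.log_mul (by positivity) (by positivity)]
    have h4 := log18
    have h5 := log_le_sqrt hL0
    linarith
  have h4 : (16 : ℝ) ≤ Real.exp 3 := by
    rw [← Real.log_le_iff_le_exp (by norm_num)]
    exact log16
  rw [h2']
  calc 18 * (k₀ : ℝ) * Δ * Lq * Real.exp (-(Lq / 2)) ≤
      Real.exp (3 + x + Lq / 100 + 2 * √Lq) * Real.exp (-(Lq / 2)) :=
        mul_le_mul_of_nonneg_right h3 (Real.exp_pos _).le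
    _ = Real.exp (3 + x + Lq / 100 + 2 * √Lq + -(Lq / 2)) := by rw [← Real.exp_add]
    _ ≤ Real.exp (-3) := by
        refine Real.exp_le_exp.2 ?_
        linarith
    _ ≤ 1 / 16 := by
        rw [Real.exp_neg, one_div]
        exact inv_anti₀ (by norm_num) h4

/-- one prime -/
lemma good_one {q : ℕ} [NeZero q] (hq : q.Prime) (hq2 : q ≠ 2) {T Dn l : ℕ} {𝓜 : Finset ℕ} {r : ℕ → ℝ}
    {Δ x : ℝ} (hr : ∀ n, 0 ≤ r n) (h𝓜 : ∀ n ∈ 𝓜, 0 < n ∧ n.Coprime q) (hU1 : 0 < U1 𝓜 r)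
    (hΔ : (∑ n ∈ 𝓜, r n) ^ 2 ≤ Δ * U1 𝓜 r) (hΔ1 : 1 ≤ Δ) (hΔD : Δ ≤ Dn)
    (hU0 : ∀ N : ℕ, q ≤ N → 2 ^ nb l / 2 * U1 𝓜 r ≤ U0 𝓜 r N)
    (hST : ST T ((16 * T * Dn) ^ 2) 𝓜 r q ≤ 1 / 16 * U1 𝓜 r) (hT1 : 1 ≤ T)
    (hlogM : Real.log Δ ≤ Real.log q / 100) (hL1 : 100 ≤ Real.log q) (hKq : (16 * T * Dn) ^ 2 ≤ q)
    (hTx : Real.log T ≤ x) (h6 : x + 2 * √(Real.log q) + 6 ≤ 48 / 100 * Real.log q)
    (hV : 0 ≤ (2 : ℝ) ^ nb l / 4 - 1) (H : Subgroup (DirichletCharacter ℂ q))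
    (hH : H.index ≤ T) (ψ : DirichletCharacter ℂ q) :
    ∃ χ : DirichletCharacter ℂ q, ψ⁻¹ * χ ∈ H ∧ χ ≠ 1 ∧ 2 ^ nb l / 4 - 1 ≤ ‖χ.LFunction (1 / 2)‖ := by
  classical
  obtain ⟨𝓗, hmH⟩ : ∃ 𝓗 : Finset (DirichletCharacter ℂ q), ∀ χ, χ ∈ 𝓗 ↔ χ ∈ H :=
    ⟨univ.filter (· ∈ H), fun χ => by simp⟩
  obtain ⟨𝓕, hmF⟩ : ∃ 𝓕 : Finset (DirichletCharacter ℂ q), ∀ χ, χ ∈ 𝓕 ↔ ψ⁻¹ * χ ∈ H :=
    ⟨univ.filter (fun χ => ψ⁻¹ * χ ∈ H), fun χ => by simp⟩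
  have hidx := index_eq H hmH
  rw [← hidx] at hH
  have hk1 : 1 ≤ Nat.card (orth H) := Nat.card_pos
  have hT0 : (0 : ℝ) < T := by exact_mod_cast hT1
  have hD0 : (0 : ℝ) < Dn := by linarith
  have hD1 : 1 ≤ Dn := by exact_mod_cast hD0
  have hk0 : (0 : ℝ) < Nat.card (orth H) := by exact_mod_cast hk1
  have hkT : (Nat.card (orth H) : ℝ) ≤ T := by exact_mod_cast hH
  obtain ⟨N, hqN, hN', hN1⟩ := Nex hq.one_lt hk1 hΔ1 rfl hL1
    ((Real.log_le_log hk0 hkT).trans hTx) hlogM h6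
  obtain ⟨K, hK⟩ : ∃ K, K = (16 * T * Dn) ^ 2 := ⟨_, rfl⟩
  rw [← hK] at hST hKq
  have hTM1 : 1 ≤ 16 * T * Dn := Nat.mul_pos (by omega) hD1
  have hK1 : 1 ≤ K := by
    rw [hK]
    exact Nat.one_le_pow _ _ hTM1
  by_contra hcon
  push Not at hcon
  have hmain := main_gen (𝓜 := 𝓜) (r := r) hq hq2 hmH hmF (K := K) (N := N) hr h𝓜 (σ := 1 / 16) (Δ := Δ)
    (V := 2 ^ nb l / 4 - 1) hU1.le hΔ ((rel_le hr hH).trans hST) hK1 (hKq.trans hqN) hN'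
    (fun χ hχ hχ1 => (hcon χ ((hmF χ).1 hχ) hχ1).le) hV
  have hKk : (Nat.card (orth H) : ℝ) * Δ * (√(K : ℝ))⁻¹ ≤ 1 / 16 := by
    have hsK : (√(K : ℝ))⁻¹ = (16 * T * Dn : ℝ)⁻¹ := by
      rw [hK]
      push_cast
      rw [Real.sqrt_sq (by positivity)]
    rw [hsK, ← div_eq_mul_inv, div_le_iff₀ (by positivity)]
    have := mul_le_mul hkT hΔD (by linarith) hT0.le
    linarith only [this]
  have h0 := hU0 N hqN
  have h1 : 2 ^ nb l / 2 * U1 𝓜 r - 1 / 16 * U1 𝓜 r ≤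
      ((2 ^ nb l / 4 - 1 + 1) * (1 + 1 / 16) + 1 / 8) * U1 𝓜 r := by
    refine le_trans (sub_le_sub_right h0 _) (hmain.trans (mul_le_mul_of_nonneg_right ?_ hU1.le))
    rw [mul_add ((Nat.card (orth H) : ℝ) * Δ)]
    linarith only [hKk, hN1]
  have h2 : (2 ^ nb l / 2 - 1 / 16) * U1 𝓜 r ≤ ((2 ^ nb l / 4 - 1 + 1) * (1 + 1 / 16) + 1 / 8) * U1 𝓜 r := by
    rw [sub_mul]
    exact h1
  have h3 := le_of_mul_le_mul_right h2 hU1
  linarith only [h3, hV]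

/-- comparison of the sizes -/
lemma compare {δ L Lq : ℝ} (hδ0 : 0 < δ) (hδ1 : δ ≤ 1) (hL : 3 ≤ L) (h1 : L ≤ Lq) (h2 : Lq ≤ 2 * L)
    (h3 : √(Real.log L) + (1 - Real.log δ) ≤ Real.log L) :
    √(δ / 4) / 10000 * √(Lq * Real.log (Real.log Lq) / Real.log Lq) ≤
      √(δ * L * Real.log (Real.log (δ * L)) / Real.log (δ * L)) / 10000 := by
  have hL0 : 0 < L := by linarith
  have hlL : 1 ≤ Real.log L := by
    rw [Real.le_log_iff_exp_le hL0]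
    have := Real.exp_one_lt_d9
    linarith
  have hlLq : Real.log L ≤ Real.log Lq := Real.log_le_log hL0 h1
  have hlδ : Real.log (δ * L) = Real.log δ + Real.log L := Real.log_mul hδ0.ne' hL0.ne'
  have hld : Real.log δ ≤ 0 := Real.log_nonpos hδ0.le hδ1
  have hB0 : 0 < Real.log (δ * L) := by
    rw [hlδ]
    have := Real.sqrt_nonneg (Real.log L)
    linarith
  have hlog2 := Real.log_two_lt_d9
  have h4 : Real.log Lq ≤ Real.log L + 1 := by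
    have := Real.log_le_log (by linarith) h2
    rw [Real.log_mul (by norm_num) hL0.ne'] at this
    linarith
  have h5 : √(Real.log Lq) ≤ Real.log (δ * L) := by
    have h6 : √(Real.log Lq) ≤ √(Real.log L) + 1 := by
      rw [Real.sqrt_le_left (by positivity)]
      have := Real.sq_sqrt (show 0 ≤ Real.log L by linarith)
      have := Real.sqrt_nonneg (Real.log L)
      nlinarith
    rw [hlδ]
    linarith
  have hlLq0 : 0 < Real.log Lq := by linarith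
  have h6 : 1 / 2 * Real.log (Real.log Lq) ≤ Real.log (Real.log (δ * L)) := by
    have h7 := Real.log_le_log (Real.sqrt_pos.2 hlLq0) h5
    rw [Real.log_sqrt hlLq0.le] at h7
    linarith
  have hA0 : 0 ≤ Real.log (Real.log Lq) := Real.log_nonneg (by linarith)
  rw [div_mul_eq_mul_div, ← Real.sqrt_mul (by positivity)]
  refine div_le_div_of_nonneg_right (Real.sqrt_le_sqrt ?_) (by norm_num)
  have h7 : Real.log (δ * L) ≤ Real.log Lq := by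
    rw [hlδ]
    linarith
  calc δ / 4 * (Lq * Real.log (Real.log Lq) / Real.log Lq) ≤
      δ / 4 * (2 * L * Real.log (Real.log Lq) / Real.log Lq) := by
        refine mul_le_mul_of_nonneg_left (div_le_div_of_nonneg_right ?_ hlLq0.le) (by positivity)
        exact mul_le_mul_of_nonneg_right h2 hA0
    _ = δ * L * (1 / 2 * Real.log (Real.log Lq)) / Real.log Lq := by ring
    _ ≤ δ * L * Real.log (Real.log (δ * L)) / Real.log (δ * L) := by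
        refine div_le_div₀ ?_ (mul_le_mul_of_nonneg_left h6 (by positivity)) hB0 h7
        exact mul_nonneg (by positivity) (by linarith)

/-- the size of the exceptional set -/
lemma exc_num {ε δ L : ℝ} {T Dn l : ℕ} {Δ : ℝ} (hδε : δ ≤ ε / 50) (hε : 0 < ε) (hL0 : 0 < L)
    (hL : 13 + Real.log L ≤ ε / 2 * L) (hT1 : 1 ≤ T) (hΔ1 : 1 ≤ Δ) (hΔD : Δ ≤ Dn)
    (hT : Real.log T ≤ (1 / 3 - ε) * L + 1) (hD : Real.log Dn ≤ δ / 2 * L + 1)
    (hl : (l : ℝ) + 1 ≤ L) :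
    32 * ((l + 1 : ℕ) : ℝ) * (T : ℝ) ^ 2 * √(((16 * T * Dn) ^ 2 : ℕ) : ℝ) * Δ ≤
      Real.exp ((1 - 2 * ε) * L) := by
  have hT0 : (0 : ℝ) < T := by exact_mod_cast hT1
  have hD0 : (0 : ℝ) < Dn := by linarith
  have e1 : √(((16 * T * Dn) ^ 2 : ℕ) : ℝ) = 16 * T * Dn := by
    push_cast
    rw [Real.sqrt_sq (by positivity)]
  rw [e1]
  have h1 : 32 * ((l + 1 : ℕ) : ℝ) * (T : ℝ) ^ 2 * (16 * T * Dn) * Δ ≤
      512 * ((l + 1 : ℕ) : ℝ) * (T : ℝ) ^ 3 * (Dn : ℝ) ^ 2 := by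
    calc 32 * ((l + 1 : ℕ) : ℝ) * (T : ℝ) ^ 2 * (16 * T * Dn) * Δ ≤
        32 * ((l + 1 : ℕ) : ℝ) * (T : ℝ) ^ 2 * (16 * T * Dn) * Dn :=
          mul_le_mul_of_nonneg_left hΔD (by positivity)
      _ = _ := by ring
  refine h1.trans ?_
  have hl1 : (0 : ℝ) < ((l + 1 : ℕ) : ℝ) := by positivity
  rw [← Real.log_le_iff_le_exp (by positivity), Real.log_mul (by positivity) (by positivity),
    Real.log_mul (by positivity) (by positivity), Real.log_mul (by positivity) (by positivity),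
    Real.log_pow, Real.log_pow]
  have h2 : Real.log ((l + 1 : ℕ) : ℝ) ≤ Real.log L := by
    refine Real.log_le_log hl1 ?_
    push_cast
    exact hl
  have h512 : Real.log 512 ≤ 7 := by
    rw [show (512 : ℝ) = 2 ^ 9 by norm_num, Real.log_pow]
    push_cast
    have := Real.log_two_lt_d9
    linarith
  have h3 : δ * L ≤ ε / 50 * L := mul_le_mul_of_nonneg_right hδε hL0.le
  push_cast at h2 ⊢
  nlinarith

end Pool.Agent.Q28.CU
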