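import Pool.Agent.Q28.SG.Fin

/-!
# Dirichlet polynomials with nonnegative coefficients, for all moduli at once
-/

set_option autoImplicit false
set_option linter.unusedSectionVars false

namespace Pool.Agent.Q28.CU

open Finset ComplexConjugate

/-- functions of the characters of all moduli -/
abbrev CF := (q : ℕ) → DirichletCharacter ℂ q → ℂ

/-- `F` is a Dirichlet polynomial with nonnegative coefficients and length at most `M` over the numbers whose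
prime divisors are at most `Z` -/
def DPoly (Z M : ℕ) (F : CF) : Prop :=
  ∃ (𝓜 : Finset ℕ) (r : ℕ → ℝ), (∀ n, 0 ≤ r n) ∧
    (∀ n ∈ 𝓜, 0 < n ∧ n ≤ M ∧ ∀ p : ℕ, p.Prime → p ∣ n → p ≤ Z) ∧
    ∀ (q : ℕ) (χ : DirichletCharacter ℂ q), F q χ = ∑ n ∈ 𝓜, (r n : ℂ) * χ ((n : ℕ) : ZMod q)

lemma DPoly.mono {Z M M' : ℕ} {F : CF} (h : DPoly Z M F) (hM : M ≤ M') : DPoly Z M' F := by
  obtain ⟨𝓜, r, h1, h2, h3⟩ := h
  exact ⟨𝓜, r, h1, fun n hn => ⟨(h2 n hn).1, (h2 n hn).2.1.trans hM, (h2 n hn).2.2⟩, h3⟩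

lemma DPoly.one (Z : ℕ) : DPoly Z 1 (fun _ _ => 1) := by
  refine ⟨{1}, fun _ => 1, fun _ => zero_le_one, fun n hn => ?_, fun q χ => ?_⟩
  · rw [mem_singleton] at hn
    subst hn
    exact ⟨one_pos, le_rfl, fun p hp hd => absurd (Nat.dvd_one.1 hd) hp.ne_one⟩
  · simp

lemma DPoly.zero (Z M : ℕ) : DPoly Z M (fun _ _ => 0) :=
  ⟨∅, fun _ => 0, fun _ => le_rfl, fun n hn => absurd hn (notMem_empty n), fun q χ => by simp⟩

lemma DPoly.prime {Z : ℕ} {P : Finset ℕ} (hP : ∀ p ∈ P, p.Prime ∧ p ≤ Z) :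
    DPoly Z Z (fun _ χ => SG.S P χ) := by
  refine ⟨P, fun _ => 1, fun _ => zero_le_one, fun n hn => ?_, fun q χ => ?_⟩
  · refine ⟨(hP n hn).1.pos, (hP n hn).2, fun p hp hd => ?_⟩
    exact (Nat.le_of_dvd (hP n hn).1.pos hd).trans (hP n hn).2
  · beta_reduce
    rw [SG.S]
    refine sum_congr rfl fun p _ => ?_
    rw [Complex.ofReal_one, one_mul]

lemma DPoly.smul {Z M : ℕ} {F : CF} (h : DPoly Z M F) {c : ℝ} (hc : 0 ≤ c) :
    DPoly Z M (fun q χ => (c : ℂ) * F q χ) := by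
  obtain ⟨𝓜, r, h1, h2, h3⟩ := h
  refine ⟨𝓜, fun n => c * r n, fun n => mul_nonneg hc (h1 n), h2, fun q χ => ?_⟩
  beta_reduce
  rw [h3, mul_sum]
  refine sum_congr rfl fun n _ => ?_
  push_cast
  ring

lemma DPoly.add {Z M : ℕ} {F G : CF} (h : DPoly Z M F) (h' : DPoly Z M G) :
    DPoly Z M (fun q χ => F q χ + G q χ) := by
  classical
  obtain ⟨𝓜, r, h1, h2, h3⟩ := h
  obtain ⟨𝓜', r', h1', h2', h3'⟩ := h'
  refine ⟨𝓜 ∪ 𝓜', fun n => (if n ∈ 𝓜 then r n else 0) + if n ∈ 𝓜' then r' n else 0, fun n => ?_,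
    fun n hn => ?_, fun q χ => ?_⟩
  · refine add_nonneg ?_ ?_
    · split_ifs
      · exact h1 n
      · exact le_rfl
    · split_ifs
      · exact h1' n
      · exact le_rfl
  · rcases mem_union.1 hn with hn | hn
    · exact h2 n hn
    · exact h2' n hn
  · have e : ∀ n, (((if n ∈ 𝓜 then r n else 0) + if n ∈ 𝓜' then r' n else 0 : ℝ) : ℂ) *
        χ ((n : ℕ) : ZMod q) = (if n ∈ 𝓜 then (r n : ℂ) * χ ((n : ℕ) : ZMod q) else 0) +
          if n ∈ 𝓜' then (r' n : ℂ) * χ ((n : ℕ) : ZMod q) else 0 := by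
      intro n
      split_ifs <;> push_cast <;> ring
    beta_reduce
    rw [sum_congr rfl fun n _ => e n, sum_add_distrib, sum_ite_mem, sum_ite_mem,
      union_inter_cancel_left, union_inter_cancel_right, h3, h3']

lemma DPoly.mul {Z M M' : ℕ} {F G : CF} (h : DPoly Z M F) (h' : DPoly Z M' G) :
    DPoly Z (M * M') (fun q χ => F q χ * G q χ) := by
  classical
  obtain ⟨𝓜, r, h1, h2, h3⟩ := h
  obtain ⟨𝓜', r', h1', h2', h3'⟩ := h'
  refine ⟨(𝓜 ×ˢ 𝓜').image fun x => x.1 * x.2,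
    fun n => ∑ x ∈ (𝓜 ×ˢ 𝓜').filter (fun x => x.1 * x.2 = n), r x.1 * r' x.2,
    fun n => sum_nonneg fun x _ => mul_nonneg (h1 _) (h1' _), fun n hn => ?_, fun q χ => ?_⟩
  · obtain ⟨x, hx, rfl⟩ := mem_image.1 hn
    rw [mem_product] at hx
    obtain ⟨a1, a2, a3⟩ := h2 _ hx.1
    obtain ⟨b1, b2, b3⟩ := h2' _ hx.2
    refine ⟨Nat.mul_pos a1 b1, Nat.mul_le_mul a2 b2, fun p hp hd => ?_⟩
    rcases hp.dvd_mul.1 hd with hd | hd
    · exact a3 p hp hd
    · exact b3 p hp hd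
  · beta_reduce
    rw [h3, h3', sum_mul_sum, ← sum_product']
    have e1 : ∑ x ∈ 𝓜 ×ˢ 𝓜', ((r x.1 : ℂ) * χ ((x.1 : ℕ) : ZMod q)) * ((r' x.2 : ℂ) * χ ((x.2 : ℕ) : ZMod q)) =
        ∑ n ∈ (𝓜 ×ˢ 𝓜').image (fun x => x.1 * x.2), ∑ x ∈ (𝓜 ×ˢ 𝓜').filter (fun x => x.1 * x.2 = n),
          ((r x.1 : ℂ) * χ ((x.1 : ℕ) : ZMod q)) * ((r' x.2 : ℂ) * χ ((x.2 : ℕ) : ZMod q)) :=
      (sum_fiberwise_of_maps_to (fun x hx => mem_image_of_mem _ hx) _).symm
    rw [e1]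
    refine sum_congr rfl fun n _ => ?_
    push_cast
    rw [sum_mul]
    refine sum_congr rfl fun x hx => ?_
    rw [← (mem_filter.1 hx).2]
    push_cast
    rw [map_mul]
    ring

lemma DPoly.pow {Z M : ℕ} {F : CF} (h : DPoly Z M F) (k : ℕ) : DPoly Z (M ^ k) (fun q χ => F q χ ^ k) := by
  induction k with
  | zero =>
    simp only [pow_zero]
    exact DPoly.one Z
  | succ k ih =>
    simp only [pow_succ]
    exact ih.mul h

lemma DPoly.sum {Z M : ℕ} {ι : Type*} (s : Finset ι) {F : ι → CF} (h : ∀ i ∈ s, DPoly Z M (F i)) :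
    DPoly Z M (fun q χ => ∑ i ∈ s, F i q χ) := by
  classical
  induction s using Finset.induction_on with
  | empty =>
    simp only [sum_empty]
    exact DPoly.zero Z M
  | insert a s ha ih =>
    simp only [sum_insert ha]
    exact (h a (mem_insert_self _ _)).add (ih fun i hi => h i (mem_insert_of_mem hi))

lemma DPoly.prod {Z : ℕ} {ι : Type*} (s : Finset ι) {F : ι → CF} {M : ι → ℕ}
    (h : ∀ i ∈ s, DPoly Z (M i) (F i)) : DPoly Z (∏ i ∈ s, M i) (fun q χ => ∏ i ∈ s, F i q χ) := by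
  classical
  induction s using Finset.induction_on with
  | empty =>
    simp only [prod_empty]
    exact DPoly.one Z
  | insert a s ha ih =>
    simp only [prod_insert ha]
    exact (h a (mem_insert_self _ _)).mul (ih fun i hi => h i (mem_insert_of_mem hi))

/-- the resonator of one block -/
lemma DPoly.block {Z : ℕ} (hZ : 1 ≤ Z) {P : Finset ℕ} (hP : ∀ p ∈ P, p.Prime ∧ p ≤ Z) {c : ℝ} (hc : 0 ≤ c)
    (K : ℕ) : DPoly Z (Z ^ (2 * K))
      (fun _ χ => SG.Rb (fun χ => (c : ℂ) * SG.S P χ) K χ) := by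
  have h1 : DPoly Z Z (fun _ χ => (c : ℂ) * SG.S P χ) := (DPoly.prime hP).smul hc
  refine DPoly.sum (range (K + 1)) (F := fun i _ χ => ((c : ℂ) * SG.S P χ) ^ (K + i)) fun i hi => ?_
  refine (h1.pow (K + i)).mono (Nat.pow_le_pow_right hZ ?_)
  rw [mem_range] at hi
  omega

end Pool.Agent.Q28.CU
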