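import Pool.Agent.Q28.CU.Fin

/-!
# Large central values in every coset, for almost all primes
-/

set_option autoImplicit false
set_option linter.unusedSectionVars false

namespace Pool.Agent.Q28.CU

open Finset Filter Pool.Agent.Q28.CS Pool.Agent.Q28.SG

/-- **Large central values in every coset, for almost all primes.** -/
theorem almost_all {ε : ℝ} (hε : 0 < ε) (hε3 : ε < 1 / 3) : ∃ c : ℝ, 0 < c ∧ ∃ Q₀ : ℕ, ∀ Q : ℕ, Q₀ ≤ Q →
    ∃ 𝓔 : Finset ℕ, (#𝓔 : ℝ) ≤ (Q : ℝ) ^ (1 - 2 * ε) ∧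
    ∀ (q : ℕ) [NeZero q], q.Prime → Q ≤ q → q ≤ 2 * Q → q ∉ 𝓔 →
      ∀ H : Subgroup (DirichletCharacter ℂ q), (H.index : ℝ) ≤ (q : ℝ) ^ (1 / 3 - ε) →
        ∀ ψ : DirichletCharacter ℂ q, ∃ χ : DirichletCharacter ℂ q, ψ⁻¹ * χ ∈ H ∧ χ ≠ 1 ∧
          Real.exp (c * √(Real.log q * Real.log (Real.log (Real.log q)) / Real.log (Real.log q))) ≤
            ‖χ.LFunction (1 / 2)‖ := by
  classical
  obtain ⟨l0, hl030, Hc⟩ := coef
  obtain ⟨δ, hδ⟩ : ∃ δ : ℝ, δ = ε / 50 := ⟨_, rfl⟩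
  have hδ0 : 0 < δ := by rw [hδ]; positivity
  have hδ1 : δ ≤ 1 / 150 := by rw [hδ]; linarith only [hε3]
  obtain ⟨L₀, hL₀⟩ := eventually_atTop.1 (((eventually_ge_atTop (300 : ℝ)).and
    (eventually_ge_atTop (gl l0 / δ))).and (((ev_log 1 13 (show 0 < ε / 2 by positivity)).and
    (Real.tendsto_log_atTop.eventually (ev_sqrt 1 (1 - Real.log δ) one_pos))).and
    (ev_sqrt 2 7 (show (0 : ℝ) < 14 / 100 by norm_num))))
  refine ⟨√(δ / 4) / 10000, by positivity, ⌈Real.exp L₀⌉₊, fun Q hQQ => ?_⟩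
  have hQ0 : (0 : ℝ) < Q := lt_of_lt_of_le (Real.exp_pos L₀) ((Nat.le_ceil _).trans (by exact_mod_cast hQQ))
  have hLL : L₀ ≤ Real.log Q := by
    rw [Real.le_log_iff_exp_le hQ0]
    exact (Nat.le_ceil _).trans (by exact_mod_cast hQQ)
  obtain ⟨L, hLdef⟩ : ∃ L, L = Real.log Q := ⟨_, rfl⟩
  rw [← hLdef] at hLL
  obtain ⟨⟨hE1, hE2⟩, ⟨hE3, hE4⟩, -⟩ := hL₀ _ hLL
  rw [one_mul] at hE3
  rw [one_mul, one_mul] at hE4
  have hL0 : 0 < L := by linarith only [hE1]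
  have hQ2 : 2 ≤ Q := by
    have h1 : (1 : ℝ) < Q := (Real.log_pos_iff hQ0.le).1 (hLdef ▸ hL0)
    exact_mod_cast h1
  have hexpL : Real.exp L = Q := by rw [hLdef, Real.exp_log hQ0]
  -- the parameters
  have hX0 : gl l0 ≤ δ * L := by
    rw [div_le_iff₀ hδ0] at hE2
    linarith only [hE2]
  obtain ⟨l, hl0, hgl, hgl2⟩ := exists_param hX0
  obtain ⟨𝓜, r, M, hr, hM1, hlogM, h𝓜, hU1, hsum, hU0⟩ := Hc l hl0
  have hδL : δ * L ≤ L / 150 := by
    have := mul_le_mul_of_nonneg_right hδ1 hL0.le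
    linarith only [this]
  have hlgl : (l : ℝ) ≤ gl l := le_gl l
  have hgl0 : 0 ≤ gl l := le_trans (Nat.cast_nonneg l) hlgl
  obtain ⟨Δ, hΔ⟩ : ∃ Δ, Δ = Real.exp (gl l / 2) := ⟨_, rfl⟩
  rw [← hΔ] at hsum
  have hΔ1 : 1 ≤ Δ := by
    rw [hΔ]
    exact Real.one_le_exp (by positivity)
  have hlogΔ : Real.log Δ = gl l / 2 := by rw [hΔ, Real.log_exp]
  obtain ⟨Dn, hDn⟩ : ∃ Dn, Dn = ⌈Δ⌉₊ := ⟨_, rfl⟩
  have hΔD : Δ ≤ Dn := by
    rw [hDn]
    exact Nat.le_ceil _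
  have hD0 : (0 : ℝ) < Dn := by linarith only [hΔ1, hΔD]
  have hD1 : 1 ≤ Dn := by exact_mod_cast hD0
  have hlogD : Real.log Dn ≤ δ / 2 * L + 1 := by
    have h1 : (Dn : ℝ) ≤ 2 * Δ := by
      have := Nat.ceil_lt_add_one (show 0 ≤ Δ by linarith only [hΔ1])
      rw [← hDn] at this
      linarith only [this, hΔ1]
    have h2 := Real.log_le_log hD0 h1
    rw [Real.log_mul (by norm_num) (by linarith only [hΔ1]), hlogΔ] at h2
    have := Real.log_two_lt_d9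
    linarith only [h2, this, hgl]
  have hα0 : 0 < 1 / 3 - ε := by linarith only [hε3]
  obtain ⟨T, hTdef⟩ : ∃ T : ℕ, T = ⌊((2 : ℝ) * Q) ^ (1 / 3 - ε)⌋₊ := ⟨_, rfl⟩
  have h2Q1 : 1 ≤ (2 : ℝ) * Q := by
    have : (2 : ℝ) ≤ Q := by exact_mod_cast hQ2
    linarith only [this]
  have hT1 : 1 ≤ T := by
    rw [hTdef]
    refine Nat.le_floor ?_
    push_cast
    exact Real.one_le_rpow h2Q1 hα0.le
  have hT0 : (0 : ℝ) < T := by exact_mod_cast hT1
  have hlogT : Real.log T ≤ (1 / 3 - ε) * L + 1 := by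
    have h1 : (T : ℝ) ≤ ((2 : ℝ) * Q) ^ (1 / 3 - ε) := by
      rw [hTdef]
      exact Nat.floor_le (by positivity)
    have h2 := Real.log_le_log hT0 h1
    rw [Real.log_rpow (by positivity), Real.log_mul (by norm_num) hQ0.ne', ← hLdef] at h2
    have h3 := Real.log_two_lt_d9
    have h4 : (1 / 3 - ε) * (Real.log 2 + L) ≤ (1 / 3 - ε) * L + 1 := by
      have : (1 / 3 - ε) * Real.log 2 ≤ 1 * Real.log 2 :=
        mul_le_mul_of_nonneg_right (by linarith only [hε]) (Real.log_nonneg (by norm_num))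
      linarith only [this, h3]
    linarith only [h2, h4]
  have hlogT' : Real.log T ≤ 1 / 3 * L + 1 := by
    have := mul_pos hε hL0
    linarith only [this, hlogT]
  have h16 := log16
  obtain ⟨K, hK⟩ : ∃ K, K = (16 * T * Dn) ^ 2 := ⟨_, rfl⟩
  have hTM1 : 1 ≤ 16 * T * Dn := Nat.mul_pos (by omega) hD1
  have hK1 : 1 ≤ K := by
    rw [hK]
    exact Nat.one_le_pow _ _ hTM1
  have hlogK : Real.log K ≤ 10 + 7 / 10 * L := by
    rw [hK]
    push_cast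
    rw [Real.log_pow, Real.log_mul (by positivity) (by positivity), Real.log_mul (by norm_num) (by positivity)]
    push_cast
    linarith only [h16, hlogT', hlogD, hL0, hδL]
  have hKM : K * M ≤ Q ^ (l + 1) := by
    refine (nat_lt_of_log (Nat.mul_pos hK1 hM1) (Nat.pow_pos (by omega)) ?_).le
    have hK0 : (0 : ℝ) < K := by exact_mod_cast hK1
    have hM0 : (0 : ℝ) < M := by exact_mod_cast hM1
    push_cast
    rw [Real.log_mul hK0.ne' hM0.ne', Real.log_pow, ← hLdef]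
    push_cast
    have h1 : (l : ℝ) * gl l ≤ l * L := by
      refine mul_le_mul_of_nonneg_left ?_ (Nat.cast_nonneg l)
      linarith only [hgl, hδL, hL0]
    have h2 : ((l : ℝ) + 1) * L = l * L + L := by ring
    rw [h2]
    linarith only [hlogK, hlogM, h1, hE1]
  obtain ⟨𝒬, h𝒬⟩ : ∃ 𝒬 : Finset ℕ, ∀ q, q ∈ 𝒬 ↔ (Q ≤ q ∧ q ≤ 2 * Q) ∧ q.Prime :=
    ⟨(Icc Q (2 * Q)).filter Nat.Prime, fun q => by rw [mem_filter, mem_Icc]⟩
  obtain ⟨𝓔, hE, hgood⟩ := exc (T := T) (K := K) (M := M) (h := l + 1) (𝒬 := 𝒬) hr hQ2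
    (fun q hq => ⟨((h𝒬 q).1 hq).2, ((h𝒬 q).1 hq).1.1⟩) (fun n hn => (h𝓜 n hn).2.1) hK1 hKM hU1 hsum
  refine ⟨𝓔, ?_, fun q _ hq hq1 hq2 hqE H hH ψ => ?_⟩
  · rw [hK] at hE
    refine (hE.trans (exc_num (δ := δ) hδ.le hε hL0 (by linarith only [hE3]) hT1 hΔ1 hΔD hlogT hlogD
      ?_)).trans (le_of_eq ?_)
    · linarith only [hlgl, hgl, hδL, hE1]
    · rw [Real.rpow_def_of_pos hQ0, ← hLdef, mul_comm]
  · have hSS := hgood q ((h𝒬 q).2 ⟨⟨hq1, hq2⟩, hq⟩) hqE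
    have hq0 : (0 : ℝ) < q := by exact_mod_cast hq.pos
    have hq1' : (Q : ℝ) ≤ q := by exact_mod_cast hq1
    have hq2' : (q : ℝ) ≤ 2 * Q := by exact_mod_cast hq2
    obtain ⟨Lq, hLq⟩ : ∃ Lq, Lq = Real.log q := ⟨_, rfl⟩
    have hLLq : L ≤ Lq := by
      rw [hLdef, hLq]
      exact Real.log_le_log hQ0 hq1'
    have hLq2 : Lq ≤ 2 * L := by
      rw [hLq]
      refine (Real.log_le_log hq0 hq2').trans ?_
      rw [Real.log_mul (by norm_num) hQ0.ne', ← hLdef]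
      have := Real.log_two_lt_d9
      linarith only [this, hE1]
    obtain ⟨-, -, hF6⟩ := hL₀ _ (hLL.trans hLLq)
    have hLq0 : 0 < Lq := by linarith only [hL0, hLLq]
    have hT : H.index ≤ T := by
      rw [hTdef]
      refine Nat.le_floor (hH.trans ?_)
      exact Real.rpow_le_rpow hq0.le hq2' hα0.le
    have hqne : q ≠ 2 := by
      rintro rfl
      have h1 := Real.log_two_lt_d9
      push_cast at hLq
      linarith only [h1, hLq, hLLq, hE1]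
    have hKq : K ≤ q := by
      refine (nat_lt_of_log hK1 hq.pos ?_).le
      rw [← hLq]
      linarith only [hlogK, hLLq, hE1]
    have hnum := numeric (by omega) hgl hgl2
    have hcomp := compare hδ0 (by linarith only [hδ1]) (by linarith only [hE1]) hLLq hLq2 hE4
    rw [hK] at hSS hKq
    have hM' : ∀ n ∈ 𝓜, 0 < n ∧ n.Coprime q := by
      intro n hn
      refine ⟨(h𝓜 n hn).1, ?_⟩
      rw [Nat.coprime_comm, hq.coprime_iff_not_dvd]
      intro hd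
      have h1 := (h𝓜 n hn).2.2 q hq hd
      have h2 : Real.exp (4 * l) < Real.exp L := Real.exp_lt_exp.2 (by linarith only [hlgl, hgl, hδL, hL0])
      rw [hexpL] at h2
      linarith only [h1, h2, hq1']
    have hU0' : ∀ N : ℕ, q ≤ N → 2 ^ nb l / 2 * U1 𝓜 r ≤ U0 𝓜 r N := by
      intro N hN
      refine hU0 N ?_
      have h1 : Real.exp (gl l) ≤ Real.exp L := Real.exp_le_exp.2 (by linarith only [hgl, hδL, hL0])
      rw [hexpL] at h1
      have h2 : (q : ℝ) ≤ N := by exact_mod_cast hN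
      linarith only [h1, h2, hq1']
    have hlM : Real.log Δ ≤ Real.log q / 100 := by
      rw [hlogΔ, ← hLq]
      linarith only [hgl, hδL, hLLq, hL0]
    have hl100 : 100 ≤ Real.log q := by
      rw [← hLq]
      linarith only [hLLq, hE1]
    have h6 : (1 / 3 * L + 1) + 2 * √(Real.log q) + 6 ≤ 48 / 100 * Real.log q := by
      rw [← hLq]
      linarith only [hF6, hLLq, hLq0]
    obtain ⟨χ, hχ1, hχ2, hχ3⟩ := good_one hq hqne hr hM' hU1 hsum hΔ1 hΔD hU0' hSS hT1 hlM hl100 hKq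
      hlogT' h6 ((Real.exp_pos _).le.trans hnum) H hT ψ
    refine ⟨χ, hχ1, hχ2, (le_trans ?_ hnum).trans hχ3⟩
    rw [← hLq]
    exact Real.exp_le_exp.2 hcomp

end Pool.Agent.Q28.CU
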