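import Pool.Agent.Q28.CU.Poly
import Pool.Agent.Q28.CS.Fin

/-!
# Sums over triples
-/

set_option autoImplicit false
set_option linter.unusedSectionVars false

namespace Pool.Agent.Q28.CU

open Finset ComplexConjugate Pool.Agent.Q28.CS

/-- the Dirichlet polynomial with the coefficients `r` -/
noncomputable def RD (𝓜 : Finset ℕ) (r : ℕ → ℝ) {q : ℕ} (χ : DirichletCharacter ℂ q) : ℂ :=
  ∑ n ∈ 𝓜, (r n : ℂ) * χ ((n : ℕ) : ZMod q)

/-- the weights of the triples -/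
noncomputable def tt (r : ℕ → ℝ) (x : ℕ × ℕ × ℕ) : ℝ := (√(x.1 : ℝ))⁻¹ * (r x.2.1 * r x.2.2)

/-- the sum of the squares -/
noncomputable def U1 (𝓜 : Finset ℕ) (r : ℕ → ℝ) : ℝ := ∑ n ∈ 𝓜, r n ^ 2

/-- the diagonal -/
noncomputable def U0 (𝓜 : Finset ℕ) (r : ℕ → ℝ) (N : ℕ) : ℝ :=
  ∑ x ∈ (Icc 1 N ×ˢ (𝓜 ×ˢ 𝓜)).filter (fun x => x.1 * x.2.2 = x.2.1), tt r x

variable {𝓜 : Finset ℕ} {r : ℕ → ℝ}

lemma tt_nonneg (hr : ∀ n, 0 ≤ r n) (x : ℕ × ℕ × ℕ) : 0 ≤ tt r x :=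
  mul_nonneg (by positivity) (mul_nonneg (hr _) (hr _))

section

variable {q : ℕ}

/-- the sums over the characters -/
noncomputable def S3 (𝓕 : Finset (DirichletCharacter ℂ q)) (x : ℕ × ℕ × ℕ) : ℂ :=
  ∑ χ ∈ 𝓕, χ ((x.1 * x.2.2 : ℕ) : ZMod q) * conj (χ ((x.2.1 : ℕ) : ZMod q))

lemma expand3 (𝓕 : Finset (DirichletCharacter ℂ q)) (N : ℕ) :
    ∑ χ ∈ 𝓕, SG.LN N χ * (RD 𝓜 r χ * conj (RD 𝓜 r χ)) =
      ∑ x ∈ Icc 1 N ×ˢ (𝓜 ×ˢ 𝓜), ((tt r x : ℝ) : ℂ) * S3 𝓕 x := by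
  have hexp : ∀ χ : DirichletCharacter ℂ q, SG.LN N χ * (RD 𝓜 r χ * conj (RD 𝓜 r χ)) =
      ∑ x ∈ Icc 1 N ×ˢ (𝓜 ×ˢ 𝓜), ((tt r x : ℝ) : ℂ) *
        (χ ((x.1 * x.2.2 : ℕ) : ZMod q) * conj (χ ((x.2.1 : ℕ) : ZMod q))) := by
    intro χ
    rw [mul_comm (RD 𝓜 r χ), sum_product, SG.LN, RD, map_sum, sum_mul_sum, sum_mul_sum]
    refine sum_congr rfl fun k _ => ?_
    rw [sum_product, ← mul_sum]
    rw [mul_sum]
    refine sum_congr rfl fun m _ => ?_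
    rw [mul_sum]
    refine sum_congr rfl fun n _ => ?_
    simp only [tt]
    rw [map_mul, Complex.conj_ofReal]
    push_cast
    rw [map_mul]
    ring
  rw [sum_congr rfl fun χ _ => hexp χ, sum_comm]
  refine sum_congr rfl fun x _ => ?_
  rw [S3, mul_sum]

lemma expand2 (𝓕 : Finset (DirichletCharacter ℂ q)) :
    ∑ χ ∈ 𝓕, ‖RD 𝓜 r χ‖ ^ 2 = ∑ x ∈ 𝓜 ×ˢ 𝓜, (r x.1 * r x.2) * (S3 𝓕 (1, x)).re := by
  have e1 : ∀ χ : DirichletCharacter ℂ q, RD 𝓜 r χ * conj (RD 𝓜 r χ) =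
      ∑ x ∈ 𝓜 ×ˢ 𝓜, ((r x.1 * r x.2 : ℝ) : ℂ) *
        (χ ((1 * x.2 : ℕ) : ZMod q) * conj (χ ((x.1 : ℕ) : ZMod q))) := by
    intro χ
    rw [mul_comm, sum_product, RD, map_sum, sum_mul_sum]
    refine sum_congr rfl fun m _ => ?_
    refine sum_congr rfl fun n _ => ?_
    rw [map_mul, Complex.conj_ofReal, one_mul]
    push_cast
    ring
  have e3 : ∑ χ ∈ 𝓕, ‖RD 𝓜 r χ‖ ^ 2 = (∑ χ ∈ 𝓕, RD 𝓜 r χ * conj (RD 𝓜 r χ)).re := by
    rw [Complex.re_sum]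
    refine sum_congr rfl fun χ _ => ?_
    rw [Complex.mul_conj, Complex.normSq_eq_norm_sq, Complex.ofReal_re]
  rw [e3, sum_congr rfl fun χ _ => e1 χ, sum_comm, Complex.re_sum]
  refine sum_congr rfl fun x _ => ?_
  rw [← mul_sum, Complex.re_ofReal_mul]
  rfl

variable [NeZero q]

/-- orthogonality for the full group -/
lemma full {a b : ℕ} (hq : q.Prime) (ha : a < q) (hb : b < q) (ha0 : 0 < a) (hb0 : 0 < b) :
    ∑ χ : DirichletCharacter ℂ q, χ ((a : ℕ) : ZMod q) * conj (χ ((b : ℕ) : ZMod q)) =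
      if a = b then ((q - 1 : ℕ) : ℂ) else 0 := by
  classical
  have hac : a.Coprime q := (Nat.coprime_of_lt_prime ha0.ne' ha hq).symm
  have hbc : b.Coprime q := (Nat.coprime_of_lt_prime hb0.ne' hb hq).symm
  have hH : ∀ χ : DirichletCharacter ℂ q, χ ∈ (univ : Finset (DirichletCharacter ℂ q)) ↔
      χ ∈ (⊤ : Subgroup (DirichletCharacter ℂ q)) := fun χ => by simp
  have hF : ∀ χ : DirichletCharacter ℂ q, χ ∈ (univ : Finset (DirichletCharacter ℂ q)) ↔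
      (1 : DirichletCharacter ℂ q)⁻¹ * χ ∈ (⊤ : Subgroup (DirichletCharacter ℂ q)) := fun χ => by simp
  have hcard : Nat.card (orth (⊤ : Subgroup (DirichletCharacter ℂ q))) = 1 := by
    rw [index_eq ⊤ hH, Subgroup.index_top]
  have hbot := Subgroup.eq_bot_of_card_eq _ hcard
  split_ifs with h
  · subst h
    rw [sum_diag hac, card_univ]
    have e1 : Fintype.card (DirichletCharacter ℂ q) = q.totient := by
      rw [← Nat.card_eq_fintype_card]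
      exact DirichletCharacter.card_eq_totient_of_hasEnoughRootsOfUnity ℂ q
    rw [e1, Nat.totient_prime hq]
  · refine (sum_three hH hF hac hbc).2 ?_
    rintro ⟨g, hg, e⟩
    rw [hbot, Subgroup.mem_bot] at hg
    rw [hg, Units.val_one, one_mul] at e
    exact h (eq_of_cast ha hb e)

/-- the diagonal sums from the sums over all characters modulo a large prime -/
lemma transfer {M N : ℕ} (h𝓜 : ∀ n ∈ 𝓜, 0 < n ∧ n ≤ M) (hq : q.Prime) (hNM : N * M < q) (hM : M < q) :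
    ∑ χ : DirichletCharacter ℂ q, ‖RD 𝓜 r χ‖ ^ 2 = ((q - 1 : ℕ) : ℝ) * U1 𝓜 r ∧
    (∑ χ : DirichletCharacter ℂ q, SG.LN N χ * (RD 𝓜 r χ * conj (RD 𝓜 r χ))).re =
      ((q - 1 : ℕ) : ℝ) * U0 𝓜 r N := by
  classical
  constructor
  · rw [expand2, U1, sum_product, mul_sum]
    refine sum_congr rfl fun m hm => ?_
    have e1 : ∀ n ∈ 𝓜, (r m * r n) * (S3 (univ : Finset (DirichletCharacter ℂ q)) (1, m, n)).re =
        if n = m then ((q - 1 : ℕ) : ℝ) * r m ^ 2 else 0 := by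
      intro n hn
      have h1 := full hq (show 1 * n < q by rw [one_mul]; exact (h𝓜 n hn).2.trans_lt hM)
        ((h𝓜 m hm).2.trans_lt hM) (by rw [one_mul]; exact (h𝓜 n hn).1) (h𝓜 m hm).1
      unfold S3
      simp only
      rw [h1, one_mul]
      split_ifs with h
      · subst h
        rw [Complex.natCast_re]
        ring
      · rw [Complex.zero_re, mul_zero]
    rw [sum_congr rfl e1, sum_ite_eq' 𝓜 m, if_pos hm]
  · rw [expand3, Complex.re_sum, U0, sum_filter, mul_sum]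
    refine sum_congr rfl fun x hx => ?_
    rw [mem_product, mem_product, mem_Icc] at hx
    obtain ⟨⟨h1, h2⟩, h3, h4⟩ := hx
    have h5 := full hq (show x.1 * x.2.2 < q from
        (Nat.mul_le_mul h2 (h𝓜 _ h4).2).trans_lt hNM) ((h𝓜 _ h3).2.trans_lt hM)
        (Nat.mul_pos h1 (h𝓜 _ h4).1) (h𝓜 _ h3).1
    rw [S3, h5, Complex.re_ofReal_mul]
    split_ifs with h
    · rw [Complex.natCast_re, mul_comm]
    · rw [Complex.zero_re, mul_zero, mul_zero]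

end

end Pool.Agent.Q28.CU
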